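import Mathlib

open Polynomial Finset

namespace Pool.Agent.MP_5cc272_an.H57

variable {R : Type*} [CommRing R]

/-- monic symmetric orthogonal polynomials with recurrence coefficients `l` -/
noncomputable def op (l : ℕ → R) : ℕ → R[X]
  | 0 => 1
  | 1 => X
  | n + 2 => X * op l (n + 1) - C (l (n + 1)) * op l n

@[simp] theorem op_zero (l : ℕ → R) : op l 0 = 1 := rfl
@[simp] theorem op_one (l : ℕ → R) : op l 1 = X := rfl
theorem op_succ (l : ℕ → R) (n : ℕ) :
    op l (n + 2) = X * op l (n + 1) - C (l (n + 1)) * op l n := rfl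

def vec (l : ℕ → R) : ℕ → ℕ → R
  | 0, k => if k = 0 then 1 else 0
  | n + 1, 0 => l 1 * vec l n 1
  | n + 1, k + 1 => vec l n k + l (k + 2) * vec l n (k + 2)

/-- coefficient functionals with respect to the basis `op l` -/
noncomputable def co (l : ℕ → R) (k : ℕ) : R[X] →ₗ[R] R :=
  (basisMonomials R).constr R fun n => vec l n k

theorem co_monomial (l : ℕ → R) (k n : ℕ) (a : R) : co l k (monomial n a) = a * vec l n k := by
  have : monomial n a = a • (basisMonomials R) n := by
    simp [smul_monomial]
  rw [this, map_smul, co, Module.Basis.constr_basis, smul_eq_mul]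

theorem co_C_mul (l : ℕ → R) (k : ℕ) (a : R) (F : R[X]) : co l k (C a * F) = a * co l k F := by
  rw [← smul_eq_C_mul, map_smul, smul_eq_mul]

theorem co_one (l : ℕ → R) (k : ℕ) : co l k 1 = if k = 0 then 1 else 0 := by
  rw [← monomial_zero_one, co_monomial, one_mul]; rfl

theorem co_X_zero (l : ℕ → R) (F : R[X]) : co l 0 (X * F) = l 1 * co l 1 F := by
  induction F using Polynomial.induction_on' with
  | add p q hp hq => rw [mul_add, map_add, map_add, hp, hq]; ring
  | monomial n a => rw [X_mul_monomial, co_monomial, co_monomial, vec]; ring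

theorem co_X_succ (l : ℕ → R) (k : ℕ) (F : R[X]) :
    co l (k + 1) (X * F) = co l k F + l (k + 2) * co l (k + 2) F := by
  induction F using Polynomial.induction_on' with
  | add p q hp hq => rw [mul_add, map_add, map_add, map_add, hp, hq]; ring
  | monomial n a => rw [X_mul_monomial, co_monomial, co_monomial, co_monomial, vec]; ring

theorem two_step {P : ℕ → Prop} (h0 : P 0) (h1 : P 1) (h : ∀ n, P n → P (n + 1) → P (n + 2)) :
    ∀ n, P n := by
  intro n
  induction n using Nat.twoStepInduction with
  | zero => exact h0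
  | one => exact h1
  | more n a b => exact h n a b

theorem co_op (l : ℕ → R) (n : ℕ) : ∀ k, co l k (op l n) = if k = n then 1 else 0 := by
  induction n using two_step with
  | h0 => intro k; simp [co_one]
  | h1 =>
    intro k
    rw [op_one, ← mul_one X]
    rcases k with _ | k
    · rw [co_X_zero, co_one]; simp
    · rw [co_X_succ, co_one, co_one]; simp
  | h n h0 h1 =>
    intro k
    rw [op_succ, map_sub, co_C_mul, h0]
    rcases k with _ | k
    · rw [co_X_zero, h1]
      rcases n with _ | n <;> simp
    · rw [co_X_succ, h1, h1]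
      by_cases h : k + 1 = n
      · subst h
        have : ¬ (k = k + 1 + 1) := by omega
        simp [this]
      · have : ¬ (k + 2 = n + 1) := by omega
        simp [h, this]

theorem vec_eq_zero (l : ℕ → R) (n : ℕ) : ∀ k, n < k → vec l n k = 0 := by
  induction n with
  | zero => intro k hk; simp [vec]; omega
  | succ n ih =>
    intro k hk
    rcases k with _ | k
    · omega
    · rw [vec, ih k (by omega), ih (k + 2) (by omega)]; simp

theorem co_eq_zero (l : ℕ → R) {F : R[X]} {k : ℕ} (h : F.natDegree < k) : co l k F = 0 := by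
  conv_lhs => rw [F.as_sum_range]
  rw [map_sum]
  refine Finset.sum_eq_zero fun i hi => ?_
  rw [co_monomial, vec_eq_zero l i k (by simp at hi; omega), mul_zero]

theorem op_natDegree_le (l : ℕ → R) (n : ℕ) : (op l n).natDegree ≤ n := by
  induction n using two_step with
  | h0 => simp
  | h1 => exact natDegree_X_le
  | h n h0 h1 =>
    rw [op_succ]
    refine (natDegree_sub_le _ _).trans (max_le ?_ ?_)
    · exact natDegree_mul_le.trans (by have := natDegree_X_le (R := R); omega)
    · exact (natDegree_C_mul_le _ _).trans (by omega)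

theorem X_mul_op (l : ℕ → R) (n : ℕ) :
    X * op l (n + 1) = op l (n + 2) + C (l (n + 1)) * op l n := by
  rw [op_succ]; ring

theorem X_pow_expand (l : ℕ → R) (n : ℕ) :
    (X : R[X]) ^ n = ∑ k ∈ range (n + 1), C (vec l n k) * op l k := by
  induction n with
  | zero => simp [vec]
  | succ n ih =>
    rw [pow_succ', ih, Finset.mul_sum, Finset.sum_range_succ', Finset.sum_range_succ' _ (n + 1)]
    have e1 : ∀ k, X * (C (vec l n (k + 1)) * op l (k + 1)) =
        C (vec l n (k + 1)) * op l (k + 2) + C (l (k + 1) * vec l n (k + 1)) * op l k := by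
      intro k; rw [op_succ, C_mul]; ring
    have e2 : ∀ k, C (vec l (n + 1) (k + 1)) * op l (k + 1) =
        C (vec l n k) * op l (k + 1) + C (l (k + 2) * vec l n (k + 2)) * op l (k + 1) := by
      intro k; rw [vec, C_add]; ring
    simp only [e1, e2, Finset.sum_add_distrib]
    rw [Finset.sum_range_succ' (fun k => C (vec l n k) * op l (k + 1))]
    have e3 : ∑ k ∈ range (n + 1), C (l (k + 2) * vec l n (k + 2)) * op l (k + 1) +
        C (vec l (n + 1) 0) * op l 0 =
        ∑ k ∈ range n, C (l (k + 1) * vec l n (k + 1)) * op l k := by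
      rw [vec, ← Finset.sum_range_succ' (fun k => C (l (k + 1) * vec l n (k + 1)) * op l k),
        Finset.sum_range_succ, Finset.sum_range_succ, vec_eq_zero l n (n + 1) (by omega),
        vec_eq_zero l n (n + 1 + 1) (by omega)]
      simp
    rw [← e3]; simp only [op_zero, zero_add, op_one]; ring

theorem expand (l : ℕ → R) {F : R[X]} {K : ℕ} (h : F.natDegree < K) :
    F = ∑ k ∈ range K, C (co l k F) * op l k := by
  have key : ∀ n a, n < K →
      monomial n a = ∑ k ∈ range K, C (co l k (monomial n a)) * op l k := by
    intro n a hn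
    simp only [co_monomial]
    rw [← C_mul_X_pow_eq_monomial, X_pow_expand l n, Finset.mul_sum]
    rw [← Finset.sum_subset (s₁ := range (n + 1)) (s₂ := range K)
      (Finset.range_subset_range.2 hn)]
    · exact Finset.sum_congr rfl fun k _ => by rw [C_mul]; ring
    · intro k _ hk
      rw [vec_eq_zero l n k (by simp at hk; omega)]; simp
  conv_lhs => rw [F.as_sum_range' K h]
  conv_rhs => rw [F.as_sum_range' K h]
  simp only [map_sum, Finset.sum_mul]
  rw [Finset.sum_comm]
  exact Finset.sum_congr rfl fun n hn => key n _ (by simpa using hn)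

theorem co_sum (l : ℕ → R) (K : ℕ) (c : ℕ → R) (z : ℕ) :
    co l z (∑ k ∈ range K, C (c k) * op l k) = if z < K then c z else 0 := by
  simp only [map_sum, co_C_mul, co_op, mul_ite, mul_one, mul_zero]
  rw [Finset.sum_ite_eq]; simp

/-- a coefficient of a product, expanding the first factor -/
theorem co_mul_expand (l : ℕ → R) (F G : R[X]) {K : ℕ} (h : F.natDegree < K) (z : ℕ) :
    co l z (F * G) = ∑ k ∈ range K, co l k F * co l z (op l k * G) := by
  conv_lhs => rw [expand l h, Finset.sum_mul, map_sum]
  exact Finset.sum_congr rfl fun k _ => by rw [mul_assoc, co_C_mul]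

section map
variable {S : Type*} [CommRing S] (f : R →+* S)

theorem op_map (l : ℕ → R) (n : ℕ) : (op l n).map f = op (fun i => f (l i)) n := by
  induction n using two_step with
  | h0 => simp
  | h1 => simp
  | h n h0 h1 => simp [op_succ, h0, h1]

theorem vec_map (l : ℕ → R) (n : ℕ) : ∀ k, f (vec l n k) = vec (fun i => f (l i)) n k := by
  induction n with
  | zero => intro k; simp only [vec]; split_ifs <;> simp
  | succ n ih => intro k; rcases k with _ | k <;> simp [vec, ih]

theorem co_map (l : ℕ → R) (k : ℕ) (F : R[X]) :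
    f (co l k F) = co (fun i => f (l i)) k (F.map f) := by
  induction F using Polynomial.induction_on' with
  | add p q hp hq => simp [hp, hq]
  | monomial n a => rw [map_monomial, co_monomial, co_monomial, map_mul, vec_map]
end map

theorem op_congr {l l' : ℕ → R} (n : ℕ) : (∀ i, 0 < i → i < n → l i = l' i) →
    op l n = op l' n := by
  induction n using two_step with
  | h0 => intro; rfl
  | h1 => intro; rfl
  | h n h0 h1 =>
    intro h
    rw [op_succ, op_succ, h0 fun i a b => h i a (by omega), h1 fun i a b => h i a (by omega),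
      h (n + 1) (by omega) (by omega)]

/-- squared norms -/
def nrm (l : ℕ → R) (k : ℕ) : R := ∏ i ∈ range k, l (i + 1)

theorem nrm_succ (l : ℕ → R) (k : ℕ) : nrm l (k + 1) = nrm l k * l (k + 1) :=
  Finset.prod_range_succ _ _

@[simp] theorem nrm_zero (l : ℕ → R) : nrm l 0 = 1 := rfl

theorem co_sym (l : ℕ → R) (k : ℕ) : ∀ F, co l 0 (op l k * F) = nrm l k * co l k F := by
  induction k using two_step with
  | h0 => intro F; simp
  | h1 => intro F; simp [co_X_zero, nrm]
  | h k h0 h1 =>
    intro F
    have : op l (k + 2) * F = op l (k + 1) * (X * F) - C (l (k + 1)) * (op l k * F) := by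
      rw [op_succ]; ring
    rw [this, map_sub, co_C_mul, h0, h1, co_X_succ, nrm_succ l (k + 1), nrm_succ l k]; ring

theorem co_swap (l : ℕ → R) (y z : ℕ) (F : R[X]) :
    nrm l z * co l z (F * op l y) = nrm l y * co l y (F * op l z) := by
  rw [← co_sym, ← co_sym]; congr 1; ring

theorem band (l : ℕ → R) (m n : ℕ) : ∀ k, k + n < m → co l k (op l m * op l n) = 0 := by
  induction n using two_step with
  | h0 => intro k hk; rw [op_zero, mul_one, co_op, if_neg (by omega)]
  | h1 =>
    intro k hk
    rw [op_one, mul_comm]
    rcases k with _ | k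
    · rw [co_X_zero, co_op, if_neg (by omega), mul_zero]
    · rw [co_X_succ, co_op, co_op, if_neg (by omega), if_neg (by omega)]; simp
  | h n h0 h1 =>
    intro k hk
    have : op l m * op l (n + 2) =
        X * (op l m * op l (n + 1)) - C (l (n + 1)) * (op l m * op l n) := by
      rw [op_succ]; ring
    rw [this, map_sub, co_C_mul, h0 k (by omega)]
    rcases k with _ | k
    · rw [co_X_zero, h1 1 (by omega)]; simp
    · rw [co_X_succ, h1 k (by omega), h1 (k + 2) (by omega)]; simp

theorem parity (l : ℕ → R) (m n : ℕ) : ∀ k, (k + m + n) % 2 = 1 →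
    co l k (op l m * op l n) = 0 := by
  induction n using two_step with
  | h0 => intro k hk; rw [op_zero, mul_one, co_op, if_neg (by omega)]
  | h1 =>
    intro k hk
    rw [op_one, mul_comm]
    rcases k with _ | k
    · rw [co_X_zero, co_op, if_neg (by omega), mul_zero]
    · rw [co_X_succ, co_op, co_op, if_neg (by omega), if_neg (by omega)]; simp
  | h n h0 h1 =>
    intro k hk
    have : op l m * op l (n + 2) =
        X * (op l m * op l (n + 1)) - C (l (n + 1)) * (op l m * op l n) := by
      rw [op_succ]; ring
    rw [this, map_sub, co_C_mul, h0 k (by omega)]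
    rcases k with _ | k
    · rw [co_X_zero, h1 1 (by omega)]; simp
    · rw [co_X_succ, h1 k (by omega), h1 (k + 2) (by omega)]; simp

/-- shifted coefficients -/
def sh (l : ℕ → R) (s : ℕ) : ℕ → R := fun i => l (s + i)

/-- associated polynomials, `as l (a+1)` of degree `a` -/
noncomputable def asp (l : ℕ → R) : ℕ → R[X]
  | 0 => 0
  | a + 1 => op (sh l 1) a

theorem asp_succ (l : ℕ → R) (a : ℕ) :
    asp l (a + 2) = X * asp l (a + 1) - C (l (a + 1)) * asp l a := by
  rcases a with _ | a
  · simp [asp]
  · simp only [asp, op_succ, sh]; rw [add_comm 1 (a + 1)]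

theorem block (l : ℕ → R) (s a : ℕ) :
    op l (s + 1 + a) = op l (s + 1) * op (sh l (s + 1)) a -
      C (l (s + 1)) * op l s * asp (sh l (s + 1)) a := by
  induction a using two_step with
  | h0 => simp [asp]
  | h1 => rw [op_succ]; simp [asp]; ring
  | h a h0 h1 =>
    rw [show s + 1 + (a + 2) = (s + 1 + a) + 2 by ring, op_succ, h0,
      show s + 1 + a + 1 = s + 1 + (a + 1) by ring, h1, op_succ, asp_succ]
    simp only [sh]; ring

theorem block_zero {l : ℕ → R} {s : ℕ} (h : l s = 0) (a : ℕ) :
    op l (s + a) = op l s * op (sh l s) a := by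
  rcases s with _ | s
  · have : sh l 0 = l := by ext i; simp [sh]
    simp [this]
  · rw [block, h]; simp

theorem co_block {l : ℕ → R} {s : ℕ} (h : l s = 0) (F : R[X]) (z : ℕ) :
    co l z (op l s * F) = if s ≤ z then co (sh l s) (z - s) F else 0 := by
  conv_lhs => rw [expand (sh l s) (Nat.lt_succ_self F.natDegree), Finset.mul_sum, map_sum]
  have : ∀ k, co l z (op l s * (C (co (sh l s) k F) * op (sh l s) k)) =
      if z = s + k then co (sh l s) k F else 0 := by
    intro k
    rw [mul_left_comm, co_C_mul, ← block_zero h, co_op]; simp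
  simp only [this]
  split_ifs with hz
  · rw [Finset.sum_eq_single (z - s)]
    · rw [if_pos (by omega)]
    · intro k _ hk; rw [if_neg (by omega)]
    · intro hk; rw [if_pos (by omega)]; exact co_eq_zero _ (by simp at hk; omega)
  · exact Finset.sum_eq_zero fun k _ => if_neg (by omega)

theorem wronski (l : ℕ → R) (n : ℕ) :
    op l n * asp l (n + 1) - op l (n + 1) * asp l n = C (nrm l n) := by
  induction n with
  | zero => simp [asp]
  | succ n ih => rw [asp_succ, op_succ, nrm_succ, C_mul, ← ih]; ring

end Pool.Agent.MP_5cc272_an.H57
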