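import Pool.Agent.MP_5cc272_an.H57.Period

open Polynomial Finset

namespace Pool.Agent.MP_5cc272_an.H57

/-- the linear map sending `op l k` to `V l δ k` -/
noncomputable def U (l δ : ℕ → ℝ) : ℝ[X] →ₗ[ℝ] ℝ[X] :=
  (basisMonomials ℝ).constr ℝ fun n => ∑ k ∈ range (n + 1), C (vec l n k) * V l δ k

theorem U_C_mul (l δ : ℕ → ℝ) (a : ℝ) (F : ℝ[X]) : U l δ (C a * F) = C a * U l δ F := by
  rw [← smul_eq_C_mul, map_smul, smul_eq_C_mul]

theorem U_eq (l δ : ℕ → ℝ) {F : ℝ[X]} {K : ℕ} (h : F.natDegree < K) :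
    U l δ F = ∑ k ∈ range K, C (co l k F) * V l δ k := by
  have key : ∀ n a, n < K →
      U l δ (monomial n a) = ∑ k ∈ range K, C (co l k (monomial n a)) * V l δ k := by
    intro n a hn
    have : monomial n a = a • (basisMonomials ℝ) n := by simp [smul_monomial]
    simp only [co_monomial]
    rw [this, map_smul, U, Module.Basis.constr_basis, smul_eq_C_mul, Finset.mul_sum,
      ← Finset.sum_subset (s₁ := range (n + 1)) (s₂ := range K)
      (Finset.range_subset_range.2 hn)]
    · exact Finset.sum_congr rfl fun k _ => by rw [C_mul]; ring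
    · intro k _ hk
      rw [vec_eq_zero l n k (by simp at hk; omega)]; simp
  conv_lhs => rw [F.as_sum_range' K h]
  conv_rhs => rw [F.as_sum_range' K h]
  simp only [map_sum, Finset.sum_mul]
  rw [Finset.sum_comm]
  exact Finset.sum_congr rfl fun n hn => key n _ (by simpa using hn)

theorem U_op (l δ : ℕ → ℝ) (n : ℕ) : U l δ (op l n) = V l δ n := by
  rw [U_eq l δ (Nat.lt_succ_of_le (op_natDegree_le l n)), Finset.sum_eq_single n]
  · simp [co_op]
  · intro k _ hk; simp [co_op, hk]
  · simp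

/-- first order defect -/
noncomputable def E (l δ : ℕ → ℝ) (x y : ℕ) : ℝ[X] :=
  U l δ (op l x * op l y) - V l δ x * op l y - op l x * V l δ y

/-- constants in the parameter -/
noncomputable abbrev ι : ℝ[X] →+* ℝ[X][X] := mapRingHom C

/-- the parameter -/
noncomputable abbrev T : ℝ[X][X] := C X

theorem ι_C (a : ℝ) : ι (C a) = C (C a) := by simp [ι]
theorem ι_X : ι X = X := by simp [ι]

theorem dvd_co (L : ℕ → ℝ[X]) (z k : ℕ) {G : ℝ[X][X]} (h : T ^ k ∣ G) : X ^ k ∣ co L z G := by
  obtain ⟨G, rfl⟩ := h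
  rw [← C_pow, co_C_mul]; exact dvd_mul_right _ _

theorem dvd_mul_sub {R : Type*} [CommRing R] {t a b c d : R} (h1 : t ∣ a - b) (h2 : t ∣ c - d) :
    t ∣ a * c - b * d := by
  have : a * c - b * d = (a - b) * c + b * (c - d) := by ring
  rw [this]; exact dvd_add (h1.mul_right _) (h2.mul_left _)

/-- `L` is a first order perturbation of `l` in the direction `δ` -/
def Pert (L : ℕ → ℝ[X]) (l δ : ℕ → ℝ) : Prop :=
  ∀ i, 0 < i → X ^ 6 ∣ L i - (C (l i) + X ^ 4 * C (δ i))

section
variable {L : ℕ → ℝ[X]} {l δ : ℕ → ℝ} (hL : Pert L l δ)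
include hL

theorem Pert.op6 (n : ℕ) : T ^ 6 ∣ op L n - (ι (op l n) - T ^ 4 * ι (V l δ n)) := by
  induction n using two_step with
  | h0 => simp
  | h1 => simp
  | h n h0 h1 =>
    obtain ⟨g0, e0⟩ := h0
    obtain ⟨g1, e1⟩ := h1
    obtain ⟨g, e⟩ := hL (n + 1) (by omega)
    rw [sub_eq_iff_eq_add] at e0 e1 e
    refine ⟨X * g1 - C (L (n + 1)) * g0 - C g * (ι (op l n) - T ^ 4 * ι (V l δ n)) +
      T ^ 2 * C (C (δ (n + 1))) * ι (V l δ n), ?_⟩
    rw [op_succ, op_succ, V_succ, e0, e1, e]
    simp only [map_add, map_sub, map_mul, map_pow, ι_C, ι_X]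
    ring

theorem Pert.op4 (n : ℕ) : T ^ 4 ∣ op L n - ι (op l n) := by
  obtain ⟨g, e⟩ := hL.op6 n
  exact ⟨T ^ 2 * g - ι (V l δ n), by linear_combination e⟩

theorem Pert.co4 (z : ℕ) (F : ℝ[X]) : X ^ 4 ∣ co L z (ι F) - C (co l z F) := by
  set K := max F.natDegree z + 1
  have h1 : T ^ 4 ∣ ι F - ∑ k ∈ range K, C (C (co l k F)) * op L k := by
    conv_rhs => enter [1]; rw [expand l (K := K) (F := F) (by omega)]
    rw [map_sum, ← Finset.sum_sub_distrib]
    refine Finset.dvd_sum fun k _ => ?_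
    rw [map_mul, ι_C, ← mul_sub]
    exact (dvd_sub_comm.1 (hL.op4 k)).mul_left _
  have h2 := dvd_co L z 4 h1
  rwa [map_sub, co_sum L K (fun k => C (co l k F)), if_pos (by omega)] at h2

theorem Pert.co6 (x y z : ℕ) : X ^ 6 ∣ co L z (op L x * op L y) -
    (C (co l z (op l x * op l y)) + X ^ 4 * C (co l z (E l δ x y))) := by
  set P := op l x * op l y with hP
  set K := max (max P.natDegree (E l δ x y).natDegree) z + 1
  have h1 : T ^ 6 ∣ ∑ k ∈ range K, C (C (co l k P) + X ^ 4 * C (co l k (E l δ x y))) * op L k -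
      (ι P + T ^ 4 * ι (E l δ x y) - T ^ 4 * ι (U l δ P)) := by
    conv_rhs =>
      enter [2]
      rw [U_eq l δ (K := K) (F := P) (by omega)]
      enter [1]
      rw [expand l (K := K) (F := E l δ x y) (by omega)]
      enter [1]
      rw [expand l (K := K) (F := P) (by omega)]
    simp only [map_sum, Finset.mul_sum, ← Finset.sum_sub_distrib, ← Finset.sum_add_distrib]
    refine Finset.dvd_sum fun k _ => ?_
    obtain ⟨g, e⟩ := hL.op6 k
    rw [sub_eq_iff_eq_add] at e
    refine ⟨C (C (co l k P) + X ^ 4 * C (co l k (E l δ x y))) * g -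
      T ^ 2 * C (C (co l k (E l δ x y))) * ι (V l δ k), ?_⟩
    rw [e]
    simp only [map_add, map_mul, map_pow, ι_C]
    ring
  have h2 : T ^ 6 ∣ op L x * op L y - (ι P + T ^ 4 * ι (E l δ x y) - T ^ 4 * ι (U l δ P)) := by
    have := dvd_mul_sub (hL.op6 x) (hL.op6 y)
    obtain ⟨g, e⟩ := this
    refine ⟨g + T ^ 2 * ι (V l δ x) * ι (V l δ y), ?_⟩
    simp only [E, hP, map_sub, map_mul]
    linear_combination e
  have h3 := dvd_co L z 6 (dvd_sub h2 h1)
  rwa [sub_sub_sub_cancel_right, map_sub,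
    co_sum L K (fun k => C (co l k P) + X ^ 4 * C (co l k (E l δ x y))), if_pos (by omega)] at h3

end

theorem E_band (l δ : ℕ → ℝ) {x y z : ℕ} (h : z + y < x) : co l z (E l δ x y) = 0 := by
  have hL : Pert (fun i => C (l i) + X ^ 4 * C (δ i)) l δ := fun i _ => by simp
  have := hL.co6 x y z
  rw [band _ x y z h, band _ x y z h, map_zero, zero_add, zero_sub, dvd_neg,
    show (X : ℝ[X]) ^ 6 = X ^ 4 * X ^ 2 by ring, mul_dvd_mul_iff_left (by simp)] at this
  have h2 : (X : ℝ[X]) ∣ C (co l z (E l δ x y)) := (dvd_pow_self X (by norm_num)).trans this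
  simpa [X_dvd_iff] using h2

theorem E_comm (l δ : ℕ → ℝ) (x y : ℕ) : E l δ x y = E l δ y x := by
  simp only [E]; rw [mul_comm (op l x) (op l y)]; ring

theorem V_block {l δ : ℕ → ℝ} {s : ℕ} (h : l s = 0) (h' : δ s = 0) (a : ℕ) :
    V l δ (s + a) = V l δ s * op (sh l s) a + op l s * V (sh l s) (sh δ s) a := by
  induction a using two_step with
  | h0 => simp
  | h1 =>
    rcases s with _ | s
    · simp
    · rw [V_succ, h, h']; simp [mul_comm]
  | h a h0 h1 =>
    rw [show s + (a + 2) = (s + a) + 2 by ring, V_succ, h0, show s + a + 1 = s + (a + 1) by ring,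
      h1, op_succ, V_succ, block_zero h]
    simp only [sh]; ring

theorem V_smul (l δ : ℕ → ℝ) (t : ℝ) (n : ℕ) :
    V l (fun i => t * δ i) n = C t * V l δ n := by
  induction n using two_step with
  | h0 => simp
  | h1 => simp
  | h n h0 h1 => rw [V_succ, V_succ, h0, h1, C_mul]; ring

/-- blockwise multiples of a direction -/
noncomputable def bd (N : ℕ) (δ θ : ℕ → ℝ) : ℕ → ℝ :=
  fun i => if i % N = 0 then 0 else θ (i / N) * δ (i % N)

/-- the value of `V` at the block starts -/
noncomputable def W (N : ℕ) (l δ θ : ℕ → ℝ) : ℕ → ℝ[X]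
  | 0 => 0
  | r + 1 => W N l δ θ r * op l N + C (θ r) * op l N ^ r * V l δ N

namespace Per
variable {N : ℕ} {l : ℕ → ℝ} (h : Per N l)
include h

theorem per_mul (r i : ℕ) : l (N * r + i) = l i := by
  induction r with
  | zero => simp
  | succ r ih => rw [show N * (r + 1) + i = N + (N * r + i) by ring, h.per, ih]

theorem sh_mul (r : ℕ) : sh l (N * r) = l := funext (h.per_mul r)

theorem op_mul_add (r a : ℕ) : op l (N * r + a) = op l N ^ r * op l a := by
  induction r with
  | zero => simp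
  | succ r ih => rw [show N * (r + 1) + a = N + (N * r + a) by ring, h.op_add, ih]; ring

theorem co_pow_lt (r : ℕ) (F : ℝ[X]) {z : ℕ} (hz : z < N * r) :
    co l z (op l N ^ r * F) = 0 := by
  have := h.op_mul_add r 0
  rw [op_zero, mul_one, add_zero] at this
  rw [← this, co_block (by simpa [h.zero] using h.per_mul r 0), if_neg (by omega)]

theorem co_pow_add (r : ℕ) (F : ℝ[X]) (z : ℕ) :
    co l (N * r + z) (op l N ^ r * F) = co l z F := by
  have := h.op_mul_add r 0
  rw [op_zero, mul_one, add_zero] at this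
  rw [← this, co_block (by simpa [h.zero] using h.per_mul r 0), if_pos (by omega), h.sh_mul]
  simp

theorem V_bd_aux (δ θ : ℕ → ℝ) (r : ℕ) {a : ℕ} (ha : a ≤ N) :
    V l (bd N δ θ) (N * r + a) =
      V l (bd N δ θ) (N * r) * op l a + C (θ r) * op l N ^ r * V l δ a := by
  have h3 := h.three
  rw [V_block (by simpa [h.zero] using h.per_mul r 0) (by simp [bd]), h.sh_mul]
  have e1 := h.op_mul_add r 0
  rw [op_zero, mul_one, add_zero] at e1
  have e2 : V l (sh (bd N δ θ) (N * r)) a = V l (fun i => θ r * δ i) a := by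
    refine V_congr l a fun i hi hi' => ?_
    have m1 : (N * r + i) % N = i := by rw [Nat.mul_add_mod]; exact Nat.mod_eq_of_lt (by omega)
    have m2 : (N * r + i) / N = r := by
      rw [Nat.mul_add_div (by omega), Nat.div_eq_of_lt (by omega), add_zero]
    simp only [sh, bd, m1, m2]; rw [if_neg (by omega)]
  rw [e1, e2, V_smul]; ring

theorem V_bd_start (δ θ : ℕ → ℝ) (r : ℕ) : V l (bd N δ θ) (N * r) = W N l δ θ r := by
  induction r with
  | zero => rfl
  | succ r ih => rw [mul_add, mul_one, h.V_bd_aux δ θ r le_rfl, ih, W]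

theorem V_bd (δ θ : ℕ → ℝ) (r : ℕ) {a : ℕ} (ha : a ≤ N) :
    V l (bd N δ θ) (N * r + a) = W N l δ θ r * op l a + C (θ r) * op l N ^ r * V l δ a := by
  rw [h.V_bd_aux δ θ r ha, h.V_bd_start]

theorem U_bd (δ θ : ℕ → ℝ) (r : ℕ) {F : ℝ[X]} (hF : F.natDegree < N) :
    U l (bd N δ θ) (op l N ^ r * F) = W N l δ θ r * F + C (θ r) * op l N ^ r * U l δ F := by
  rw [U_eq l δ hF]
  conv_lhs => rw [expand l hF]
  conv_rhs => enter [1]; rw [expand l hF]
  simp only [Finset.mul_sum, map_sum, ← Finset.sum_add_distrib]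
  refine Finset.sum_congr rfl fun k hk => ?_
  rw [mul_left_comm, U_C_mul, ← h.op_mul_add, U_op, h.V_bd δ θ r (by simp at hk; omega)]
  ring

theorem split {a b : ℕ} (ha : a < N) (hb : b < N) : ∃ R Q : ℝ[X], R.natDegree < N ∧
    Q.natDegree < N ∧ op l a * op l b = R + op l N * Q := by
  have hd : ∀ c : ℕ → ℝ, (∑ k ∈ range N, C (c k) * op l k).natDegree < N := by
    intro c
    refine lt_of_le_of_lt (natDegree_sum_le_of_forall_le _ _ (n := N - 1) fun k hk => ?_) (by omega)
    exact (natDegree_C_mul_le _ _).trans ((op_natDegree_le l k).trans (by simp at hk; omega))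
  refine ⟨_, _, hd fun k => co l k (op l a * op l b),
    hd fun k => co l (N + k) (op l a * op l b), ?_⟩
  conv_lhs => rw [expand l (K := N + N) (lt_of_le_of_lt (natDegree_mul_le.trans
      (add_le_add (op_natDegree_le l a) (op_natDegree_le l b))) (by omega)), Finset.sum_range_add]
  rw [Finset.mul_sum]
  congr 1
  exact Finset.sum_congr rfl fun k _ => by rw [h.op_add]; ring

theorem E_formula (δ θ : ℕ → ℝ) (i j : ℕ) {a b : ℕ} (ha : a < N) (hb : b < N) :
    ∃ E1 G : ℝ[X], (∀ c, (c + b < a ∨ c + a < b) → co l c E1 = 0) ∧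
      E l (bd N δ θ) (N * i + a) (N * j + b) =
        (W N l δ θ (i + j) - W N l δ θ i * op l N ^ j - op l N ^ i * W N l δ θ j) *
          (op l a * op l b) +
        op l N ^ (i + j) * (C (θ (i + j) - θ i) * (V l δ a * op l b) +
          C (θ (i + j) - θ j) * (op l a * V l δ b) + C (θ (i + j)) * E1) +
        op l N ^ (i + j + 1) * G := by
  obtain ⟨R, Q, hR, hQ, e⟩ := h.split ha hb
  set θ1 : ℕ → ℝ := fun r => if r = 0 then 1 else 0 with hθ1
  have e1 : E l (bd N δ θ1) a b = U l δ R + V l δ N * Q - V l δ a * op l b - op l a * V l δ b := by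
    have u0 := h.U_bd δ θ1 0 hR
    have u1 := h.U_bd δ θ1 1 hQ
    have v0 := h.V_bd δ θ1 0 ha.le
    have v1 := h.V_bd δ θ1 0 hb.le
    simp [W, hθ1] at u0 u1 v0 v1
    rw [E, e, map_add, u0, u1, v0, v1]
  refine ⟨E l (bd N δ θ1) a b, C (θ (i + j + 1)) * U l δ Q, ?_, ?_⟩
  · rintro c (hc | hc)
    · exact E_band _ _ hc
    · rw [E_comm]; exact E_band _ _ hc
  · rw [e1, E, h.V_bd δ θ i ha.le, h.V_bd δ θ j hb.le, h.op_mul_add, h.op_mul_add]
    have : op l N ^ i * op l a * (op l N ^ j * op l b) =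
        op l N ^ (i + j) * R + op l N ^ (i + j + 1) * Q := by
      rw [mul_mul_mul_comm, e]; ring
    rw [this, map_add, h.U_bd δ θ _ hR, h.U_bd δ θ _ hQ, W]
    simp only [C_sub]
    linear_combination (-W N l δ θ (i + j)) * e

end Per

theorem out_range {N : ℕ} {l δ : ℕ → ℝ} (h : Per N l) (hd : Dir N l δ) {a b c : ℕ} (ha : a < N)
    (hc : c + b < a) (hp : (a + b + c) % 2 = 0) :
    0 < co l c (V l δ a * op l b) ∧ co l c (op l a * V l δ b) = 0 ∧
      co l c (V l δ a * op l b) < co l (N + c) (V l δ N * (op l a * op l b)) := by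
  have hs : 0 < co l c (op l (b + c) * op l b) :=
    h.strict (by omega) (by omega) (by omega) (by omega) (by omega) (by omega)
  refine ⟨?_, ?_, ?_⟩
  · exact h.pos_mul (nn_V hd.A ha.le) (NN.op l b) (hd.A a (b + c) (by omega) ha.le (by omega)) hs
  · rw [mul_comm, co_mul_expand l _ _ (Nat.lt_succ_of_le (V_natDegree_le l δ b))]
    refine Finset.sum_eq_zero fun k hk => ?_
    rw [mul_comm (op l k), band l a k c (by simp at hk; omega), mul_zero]
  · have nn : NN l (V l δ N * op l a - op l N * V l δ a) := by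
      intro z
      have n1 := h.nn_mul (nn_V hd.A le_rfl) (NN.op l a) z
      rw [map_sub]
      by_cases hz : z < N
      · rw [h.co_lt _ hz]; linarith
      · obtain ⟨e, rfl⟩ := Nat.exists_eq_add_of_le (not_lt.1 hz)
        rw [h.co_add]
        by_cases he : a < e + 2 ∨ (a + e) % 2 = 1
        · rw [V_co_zero l δ a e he]; linarith
        · linarith [hd.B a e (by omega) ha (by omega)]
    have := h.pos_mul nn (NN.op l b) (e := N + (b + c)) (z := N + c)
      (by rw [map_sub, h.co_add]; linarith [hd.B a (b + c) (by omega) ha (by omega)])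
      (by rw [h.op_add, mul_assoc, h.co_add]; exact hs)
    rw [sub_mul, map_sub, mul_assoc (op l N), h.co_add, mul_assoc] at this
    linarith

/-- multipliers of the three blocks -/
noncomputable def th : ℕ → ℝ := fun r => ((r % 3 : ℕ) : ℝ)

theorem first_order {N : ℕ} {l δ : ℕ → ℝ} (h : Per N l) (hd : Dir N l δ) {i j a b z : ℕ}
    (hi : i ≤ j) (hj : j ≤ 2) (ha : a < N) (hb : b < N)
    (h1 : N * j + b ≤ z) (h2 : z ≤ N * i + a + (N * j + b)) (h0 : N * i + a ≤ N * j + b)
    (hp : (N * i + a + (N * j + b) + z) % 2 = 0) (hex : ¬ (i = 2 ∧ z < N * 3)) :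
    0 < co l z (op l (N * i + a) * op l (N * j + b)) ∨
      (co l z (op l (N * i + a) * op l (N * j + b)) = 0 ∧
        0 < co l z (E l (bd N δ th) (N * i + a) (N * j + b))) := by
  have hodd := h.odd
  have e0 : op l (N * i + a) * op l (N * j + b) = op l N ^ (i + j) * (op l a * op l b) := by
    rw [h.op_mul_add, h.op_mul_add]; ring
  obtain ⟨E1, G, hE1, eE⟩ := h.E_formula δ th i j ha hb
  obtain ⟨γ, hγ0, hγ, hγ'⟩ : ∃ γ : ℝ, 0 ≤ γ ∧
      (W N l δ th (i + j) - W N l δ th i * op l N ^ j - op l N ^ i * W N l δ th j =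
        C γ * (op l N ^ (i + j - 1) * V l δ N)) ∧
      (γ = if i = 0 then 0 else if j = 2 ∧ i = 1 then 2 else 1) := by
    refine ⟨_, by split_ifs <;> norm_num, ?_, rfl⟩
    interval_cases j <;> interval_cases i <;> simp [W, th] <;>
      simp only [map_ofNat] <;> ring
  rw [e0, eE, hγ]
  have hY := nn_V hd.A (le_refl N)
  by_cases hz : z < N * (i + j)
  · right
    refine ⟨h.co_pow_lt _ _ hz, ?_⟩
    have hi0 : i ≠ 0 := by rintro rfl; simp at hz; omega
    have hk : i + j = (i + j - 1) + 1 := by omega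
    have hz' : N * (i + j - 1) ≤ z := by
      interval_cases j <;> interval_cases i <;> simp at * <;> omega
    obtain ⟨c, rfl⟩ := Nat.exists_eq_add_of_le hz'
    rw [map_add, map_add, h.co_pow_lt _ _ hz, h.co_pow_lt _ _ (by nlinarith), add_zero, add_zero,
      mul_assoc, co_C_mul, mul_assoc, h.co_pow_add]
    have hc : c < N := by rw [hk] at hz; simp at hz; nlinarith
    refine mul_pos (by rw [hγ', if_neg hi0]; split_ifs <;> norm_num)
      (h.pos_full hY ha hb hc fun e he hpar => hd.A N e ?_ le_rfl ?_)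
    · interval_cases j <;> interval_cases i <;> simp at * <;> omega
    · interval_cases j <;> interval_cases i <;> simp at * <;> omega
  · obtain ⟨c, rfl⟩ := Nat.exists_eq_add_of_le (not_lt.1 hz)
    have hp' : (a + b + c) % 2 = 0 := by
      have : N * i + a + (N * j + b) + (N * (i + j) + c) = a + b + c + 2 * (N * (i + j)) := by ring
      omega
    have hcab : c ≤ a + b := by rw [mul_add] at h2; omega
    rw [h.co_pow_add]
    by_cases hr : c + b < a ∨ c + a < b
    · right
      refine ⟨?_, ?_⟩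
      · rcases hr with hr | hr
        · exact band l a b c hr
        · rw [mul_comm]; exact band l b a c hr
      have hG : co l (N * (i + j) + c) (op l N ^ (i + j + 1) * G) = 0 :=
        h.co_pow_lt _ _ (by rw [mul_add N (i + j) 1]; omega)
      have hmain : co l (N * (i + j) + c) (C γ * (op l N ^ (i + j - 1) * V l δ N) *
          (op l a * op l b)) = γ * co l (N + c) (V l δ N * (op l a * op l b)) := by
        rw [mul_assoc, co_C_mul]
        by_cases hi0 : i = 0
        · rw [hγ', if_pos hi0]; simp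
        · have hk : N * (i + j) + c = N * (i + j - 1) + (N + c) := by
            obtain ⟨m, hm⟩ : ∃ m, i + j = m + 1 := ⟨i + j - 1, by omega⟩
            rw [hm]; simp; ring
          rw [hk, mul_assoc, h.co_pow_add]
      rw [map_add, map_add, hG, hmain, h.co_pow_add, map_add, map_add, co_C_mul, co_C_mul,
        co_C_mul, hE1 c hr]
      rcases hr with hr | hr
      · obtain ⟨o1, o2, o3⟩ := out_range h hd ha hr hp'
        rw [o2, hγ']
        interval_cases j <;> interval_cases i <;> simp [th] at * <;> first | omega | linarith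
      · obtain ⟨o1, o2, o3⟩ := out_range h hd hb hr (by omega)
        rw [mul_comm (op l b)] at o2 o3
        rw [mul_comm (V l δ b)] at o1 o3
        rw [o2, hγ']
        interval_cases j <;> interval_cases i <;> simp [th] at * <;> first | omega | linarith
    · left
      exact h.strict ha hb hcab (by omega) (by omega) hp'

end Pool.Agent.MP_5cc272_an.H57
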