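import Pool.Agent.MP_5cc272_an.H57.Root

open Polynomial Finset Filter Topology

namespace Pool.Agent.MP_5cc272_an.H57

noncomputable def l0 : ℕ → ℝ := fun i => if i % 3 = 1 then 2 else if i % 3 = 2 then 3 else 0

theorem good_zero : Good 0 l0 √5 := by
  have s5 : √5 ^ 2 = 5 := Real.sq_sqrt (by norm_num)
  have sp : 0 < √5 := Real.sqrt_pos.2 (by norm_num)
  have a1 : l0 1 = 2 := by simp [l0]
  have a2 : l0 2 = 3 := by simp [l0]
  have a3 : l0 3 = 0 := by simp [l0]
  have o2 : op l0 2 = X * X - C 2 := by rw [op_succ, a1]; simp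
  have o3 : op l0 3 = X * (X * X - C 2) - C 3 * X := by rw [op_succ, a2, o2]; simp
  have o4 : op l0 4 = X * (X * (X * X - C 2) - C 3 * X) := by rw [op_succ, a3, o3]; simp
  have e11 : op l0 1 * op l0 1 = op l0 2 + C 2 * op l0 0 := by rw [o2]; simp
  have e12 : op l0 1 * op l0 2 = op l0 3 + C 3 * op l0 1 := by rw [o3, o2]; simp
  have e22 : op l0 2 * op l0 2 = op l0 4 + op l0 2 + C 6 * op l0 0 := by
    rw [o4, o2]; simp only [map_ofNat, op_zero]; ring
  refine ⟨⟨by norm_num, by norm_num, fun i => by simp [l0], by simp [l0], fun i h1 h2 => ?_,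
    fun x y z h1 h2 h3 h4 h5 => ?_⟩, ?_, fun k hk => ?_, fun i hi => ?_⟩
  · norm_num at h2; interval_cases i <;> simp [l0]
  · norm_num at h2
    interval_cases y <;> interval_cases x <;> interval_cases z <;>
      first
      | omega
      | (rw [op_zero, one_mul, co_op]; norm_num)
      | (rw [e11, map_add, co_C_mul, co_op, co_op]; norm_num)
      | (rw [e12, map_add, co_C_mul, co_op, co_op]; norm_num)
      | (rw [e22, map_add, map_add, co_C_mul, co_op, co_op, co_op]; norm_num)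
      | simp [co_one]
  · norm_num [o3]; nlinarith
  · norm_num at hk
    interval_cases k
    · simp
    · simp
    · norm_num [o2]
  · obtain rfl : i = 0 := by omega
    norm_num [o2, nrm, Finset.prod_range_succ, a1, a2]

theorem eval_zero_odd (l : ℕ → ℝ) (k : ℕ) : (op l (2 * k + 1)).eval 0 = 0 := by
  induction k with
  | zero => simp
  | succ k ih => rw [show 2 * (k + 1) + 1 = (2 * k + 1) + 2 by ring, op_succ]; simp [ih]

theorem char_bound {N : ℕ} {l : ℕ → ℝ} (h : Per N l) {ρ : ℝ} (root : (op l N).eval ρ = 0)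
    (pos : ∀ k, k < N → 0 < (op l k).eval ρ) (k : ℕ) (hk : k < N) :
    |(op l k).eval 0| ≤ (op l k).eval ρ := by
  have root0 : (op l N).eval 0 = 0 := by
    have := h.odd
    rw [show N = 2 * (N / 2) + 1 by omega]; exact eval_zero_odd l _
  obtain ⟨n, hn, hmax⟩ := Finset.exists_max_image (range N)
    (fun k => |(op l k).eval 0| / (op l k).eval ρ) ⟨k, by simpa using hk⟩
  set μ := |(op l n).eval 0| / (op l n).eval ρ with hμ
  simp only [mem_range] at hn hmax
  have hb : ∀ e, e < N → |(op l e).eval 0| ≤ μ * (op l e).eval ρ := fun e he =>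
    (div_le_iff₀ (pos e he)).1 (hmax e he)
  obtain ⟨R, Q, hR, -, e⟩ := h.split hn hn
  have nn : ∀ e, e < N → 0 ≤ co l e R := by
    intro z hz
    have := h.nn_small hn hn z
    rwa [e, map_add, h.co_lt _ hz, add_zero] at this
  have ev : ∀ t, (op l N).eval t = 0 →
      (op l n).eval t ^ 2 = ∑ e ∈ range N, co l e R * (op l e).eval t := by
    intro t ht
    rw [sq, ← eval_mul, e, eval_add, eval_mul, ht, zero_mul, add_zero]
    conv_lhs => rw [expand l hR]
    simp [eval_finsetSum]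
  have key : (op l n).eval 0 ^ 2 ≤ μ * (op l n).eval ρ ^ 2 := by
    rw [ev 0 root0, ev ρ root, Finset.mul_sum]
    refine Finset.sum_le_sum fun e he => ?_
    simp only [mem_range] at he
    have := (le_abs_self _).trans (hb e he)
    nlinarith [nn e he]
  have pn := pos n hn
  have hμ2 : |(op l n).eval 0| = μ * (op l n).eval ρ := by rw [hμ]; field_simp
  have μ1 : μ ≤ 1 := by
    rw [← sq_abs, hμ2] at key
    by_contra hc
    have h1 : 0 < (op l n).eval ρ ^ 2 := by positivity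
    have h2 : 1 < μ := not_le.1 hc
    have h3 : 0 < μ * (μ - 1) * (op l n).eval ρ ^ 2 :=
      mul_pos (mul_pos (by linarith) (by linarith)) h1
    nlinarith
  nlinarith [hb k hk, pos k hk]

theorem exists_seq : ∃ f : ℕ → (ℕ → ℝ) × ℝ, ∀ j, Good j (f j).1 (f j).2 ∧
    (∀ i, i < 3 ^ (j + 1) → (f (j + 1)).1 i = (f j).1 i) ∧ (f j).2 ≤ (f (j + 1)).2 ∧
      (f (j + 1)).2 ≤ (f j).2 + (1 / 2) ^ j := by
  have st : ∀ (j : ℕ) (p : {p : (ℕ → ℝ) × ℝ // Good j p.1 p.2}),
      ∃ q : {p : (ℕ → ℝ) × ℝ // Good (j + 1) p.1 p.2},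
        (∀ i, i < 3 ^ (j + 1) → q.1.1 i = p.1.1 i) ∧ p.1.2 ≤ q.1.2 ∧ q.1.2 ≤ p.1.2 + (1 / 2) ^ j := by
    intro j p
    obtain ⟨l', ρ', g, r⟩ := step p.2 (ε := (1 / 2) ^ j) (by positivity)
    exact ⟨⟨(l', ρ'), g⟩, r⟩
  choose nx hnx using st
  let F : ∀ j, {p : (ℕ → ℝ) × ℝ // Good j p.1 p.2} := fun j =>
    Nat.rec (motive := fun j => {p : (ℕ → ℝ) × ℝ // Good j p.1 p.2}) ⟨(l0, √5), good_zero⟩ nx j
  exact ⟨fun j => (F j).1, fun j => ⟨(F j).2, hnx j (F j)⟩⟩

theorem exists_limit : ∃ (l : ℕ → ℝ) (x : ℝ), (∀ i, 0 < i → 0 < l i) ∧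
    (∀ n, 0 < (op l n).eval x) ∧ (∀ n, |(op l n).eval 0| ≤ (op l n).eval x) ∧
    (∀ m n, ∃ g : ℕ → ℝ, (∀ k, 0 ≤ g k) ∧
      op l m * op l n = ∑ k ∈ range (m + n + 1), C (g k) * op l k) ∧
    ∀ i, ((op l (3 ^ i * 2)).eval x) ^ 2 ≤ 7 / 4 * nrm l (3 ^ i * 2) := by
  obtain ⟨f, hf⟩ := exists_seq
  have lt3 : ∀ i, i < 3 ^ (i + 1) := fun i =>
    (Nat.lt_succ_self i).trans (Nat.lt_pow_self (by norm_num))
  have ag : ∀ j j', j ≤ j' → ∀ i, i < 3 ^ (j + 1) → (f j').1 i = (f j).1 i := by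
    intro j j' hj i hi
    induction j', hj using Nat.le_induction with
    | base => rfl
    | succ k hk ih =>
      rw [(hf k).2.1 i (hi.trans_le (Nat.pow_le_pow_right (by norm_num) (by omega))), ih]
  set l : ℕ → ℝ := fun i => (f i).1 i with hl
  have ag' : ∀ j i, i < 3 ^ (j + 1) → l i = (f j).1 i := by
    intro j i hi
    rw [hl]; simp only
    rw [← ag j (max i j) (le_max_right _ _) i hi, ← ag i (max i j) (le_max_left _ _) i (lt3 i)]
  have opeq : ∀ j n, n ≤ 3 ^ (j + 1) → op l n = op (f j).1 n := fun j n hn =>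
    op_congr n fun i _ hi => ag' j i (by omega)
  have mono : Monotone fun j => (f j).2 := monotone_nat_of_le_succ fun j => (hf j).2.2.1
  have bd : ∀ j, (f j).2 ≤ (f 0).2 + 2 - 2 * (1 / 2) ^ j := by
    intro j
    induction j with
    | zero => simp
    | succ j ih => have := (hf j).2.2.2; rw [pow_succ]; linarith
  have bdd : BddAbove (Set.range fun j => (f j).2) :=
    ⟨(f 0).2 + 2, by
      rintro _ ⟨j, rfl⟩
      have : (0 : ℝ) < (1 / 2) ^ j := by positivity
      linarith [bd j]⟩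
  set x := ⨆ j, (f j).2 with hx
  have lex : ∀ j, (f j).2 ≤ x := fun j => le_ciSup bdd j
  have tx : Tendsto (fun j => (f j).2) atTop (𝓝 x) := tendsto_atTop_ciSup mono bdd
  have up : ∀ n, (op (f n).1 n).eval (f n).2 ≤ (op l n).eval x := by
    intro n
    rw [opeq n n (lt3 n).le]
    exact (mono_aux (fun i a b => ((hf n).1.per.pos i a b).le) (lex n) (hf n).1.pos n (lt3 n)).1
  refine ⟨l, x, fun i hi => (hf i).1.per.pos i hi (lt3 i),
    fun n => ((hf n).1.pos n (lt3 n)).trans_le (up n), fun n => ?_, fun m n => ?_, fun i => ?_⟩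
  · refine le_trans ?_ (up n)
    rw [opeq n n (lt3 n).le]
    exact char_bound (hf n).1.per (hf n).1.root (hf n).1.pos n (lt3 n)
  · have h3 := lt3 (m + n)
    refine ⟨fun k => co (f (m + n)).1 k (op (f (m + n)).1 m * op (f (m + n)).1 n),
      fun k => (hf (m + n)).1.per.nn_op _ m n rfl k, ?_⟩
    rw [opeq (m + n) m (by omega), opeq (m + n) n (by omega)]
    conv_lhs => rw [expand (f (m + n)).1 (K := m + n + 1) (Nat.lt_succ_of_le
      (natDegree_mul_le.trans (add_le_add (op_natDegree_le _ m) (op_natDegree_le _ n))))]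
    exact Finset.sum_congr rfl fun k hk => by rw [opeq (m + n) k (by simp at hk; omega)]
  · have t2 : Tendsto (fun j => ((op l (3 ^ i * 2)).eval (f j).2) ^ 2) atTop
        (𝓝 (((op l (3 ^ i * 2)).eval x) ^ 2)) :=
      (((op l _).continuous.pow 2).tendsto x).comp tx
    refine le_of_tendsto t2 ((eventually_ge_atTop i).mono fun j hj => ?_)
    have hlt : 3 ^ i * 2 < 3 ^ (j + 1) := by
      have : 3 ^ (i + 1) ≤ 3 ^ (j + 1) := Nat.pow_le_pow_right (by norm_num) (by omega)
      have h2 : 0 < 3 ^ i := by positivity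
      rw [pow_succ] at this; omega
    have : nrm l (3 ^ i * 2) = nrm (f j).1 (3 ^ i * 2) :=
      Finset.prod_congr rfl fun k hk => ag' j _ (by simp at hk; omega)
    rw [opeq j _ hlt.le, this]
    exact ((hf j).1.hb i hj).le

end Pool.Agent.MP_5cc272_an.H57
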