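import Pool.Agent.MP_5cc272_an.H57.Basic

open Polynomial Finset

namespace Pool.Agent.MP_5cc272_an.H57

/-- a periodised block system with strictly positive linearization -/
structure Per (N : ℕ) (l : ℕ → ℝ) : Prop where
  three : 3 ≤ N
  odd : N % 2 = 1
  per : ∀ i, l (N + i) = l i
  zero : l 0 = 0
  pos : ∀ i, 0 < i → i < N → 0 < l i
  nlp : ∀ x y z, x ≤ y → y < N → y ≤ z → z ≤ x + y → (x + y + z) % 2 = 0 →
    0 < co l z (op l x * op l y)

/-- nonnegative coefficients -/
def NN (l : ℕ → ℝ) (F : ℝ[X]) : Prop := ∀ z, 0 ≤ co l z F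

theorem NN.add {l : ℕ → ℝ} {F G : ℝ[X]} (hF : NN l F) (hG : NN l G) : NN l (F + G) :=
  fun z => by rw [map_add]; exact add_nonneg (hF z) (hG z)

theorem NN.op (l : ℕ → ℝ) (n : ℕ) : NN l (op l n) := fun z => by
  rw [co_op]; split_ifs <;> norm_num

theorem NN.smul {l : ℕ → ℝ} {F : ℝ[X]} (hF : NN l F) {a : ℝ} (ha : 0 ≤ a) : NN l (C a * F) :=
  fun z => by rw [co_C_mul]; exact mul_nonneg ha (hF z)

namespace Per
variable {N : ℕ} {l : ℕ → ℝ} (h : Per N l)
include h

theorem lN : l N = 0 := by simpa [h.zero] using h.per 0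

theorem shN : sh l N = l := funext h.per

theorem op_add (a : ℕ) : op l (N + a) = op l N * op l a := by
  rw [block_zero h.lN, h.shN]

theorem co_lt (F : ℝ[X]) {z : ℕ} (hz : z < N) : co l z (op l N * F) = 0 := by
  rw [co_block h.lN, if_neg (by omega)]

theorem co_add (F : ℝ[X]) (z : ℕ) : co l (N + z) (op l N * F) = co l z F := by
  rw [co_block h.lN, if_pos (by omega), h.shN]; simp

theorem nrm_pos : ∀ k, k < N → 0 < nrm l k := by
  intro k hk
  exact Finset.prod_pos fun i hi => h.pos _ (by omega) (by simp at hi; omega)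

theorem nlp' {x y z : ℕ} (hx : x < N) (hy : y < N) (h1 : x ≤ z) (h2 : y ≤ z) (h3 : z ≤ x + y)
    (hp : (x + y + z) % 2 = 0) : 0 < co l z (op l x * op l y) := by
  rcases le_total x y with hxy | hxy
  · exact h.nlp x y z hxy hy h2 h3 hp
  · rw [mul_comm]; exact h.nlp y x z hxy hx h1 (by omega) (by omega)

theorem strict {x y z : ℕ} (hx : x < N) (hy : y < N) (h1 : z ≤ x + y) (h2 : x ≤ z + y)
    (h3 : y ≤ z + x) (hp : (x + y + z) % 2 = 0) : 0 < co l z (op l x * op l y) := by
  wlog hxy : x ≤ y generalizing x y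
  · rw [mul_comm]; exact this hy hx (by omega) h3 h2 (by omega) (by omega)
  by_cases hz : y ≤ z
  · exact h.nlp x y z hxy hy hz h1 hp
  · have e := co_swap l y z (op l x)
    have p1 := h.nlp' (x := x) (y := z) (z := y) hx (by omega) hxy (by omega) (by omega) (by omega)
    have p2 := mul_pos (h.nrm_pos y hy) p1
    rw [← e] at p2
    exact (pos_iff_pos_of_mul_pos p2).1 (h.nrm_pos z (by omega))

theorem nn_small {x y : ℕ} (hx : x < N) (hy : y < N) : NN l (op l x * op l y) := by
  intro z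
  by_cases hp : (z + x + y) % 2 = 1
  · rw [parity l x y z hp]
  by_cases h1 : x + y < z
  · rw [co_eq_zero l (lt_of_le_of_lt (natDegree_mul_le.trans
      (add_le_add (op_natDegree_le l x) (op_natDegree_le l y))) h1)]
  by_cases h2 : z + y < x
  · rw [band l x y z h2]
  by_cases h3 : z + x < y
  · rw [mul_comm, band l y x z h3]
  exact (h.strict hx hy (by omega) (by omega) (by omega) (by omega)).le

theorem nn_Pi {F : ℝ[X]} (hF : NN l F) : NN l (op l N * F) := by
  intro z
  by_cases hz : z < N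
  · rw [h.co_lt F hz]
  · obtain ⟨k, rfl⟩ := Nat.exists_eq_add_of_le (not_lt.1 hz)
    rw [h.co_add]; exact hF k

theorem nn_op : ∀ s x y, x + y = s → NN l (op l x * op l y) := by
  intro s
  induction s using Nat.strong_induction_on with
  | _ s ih =>
    intro x y hs
    have := h.three
    by_cases hx : x < N
    · by_cases hy : y < N
      · exact h.nn_small hx hy
      · obtain ⟨k, rfl⟩ := Nat.exists_eq_add_of_le (not_lt.1 hy)
        rw [h.op_add, mul_left_comm]
        exact h.nn_Pi (ih (x + k) (by omega) x k rfl)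
    · obtain ⟨k, rfl⟩ := Nat.exists_eq_add_of_le (not_lt.1 hx)
      rw [h.op_add, mul_assoc]
      exact h.nn_Pi (ih (k + y) (by omega) k y rfl)

theorem nn_op_mul (e : ℕ) {G : ℝ[X]} (hG : NN l G) : NN l (op l e * G) := by
  intro z
  rw [mul_comm, co_mul_expand l G _ (Nat.lt_succ_self _)]
  exact Finset.sum_nonneg fun k _ => mul_nonneg (hG k) (h.nn_op _ k e rfl z)

theorem nn_mul {F G : ℝ[X]} (hF : NN l F) (hG : NN l G) : NN l (F * G) := by
  intro z
  rw [co_mul_expand l F _ (Nat.lt_succ_self _)]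
  exact Finset.sum_nonneg fun k _ => mul_nonneg (hF k) (h.nn_op_mul k hG z)

theorem pos_mul {F G : ℝ[X]} (hF : NN l F) (hG : NN l G) {e z : ℕ} (h1 : 0 < co l e F)
    (h2 : 0 < co l z (op l e * G)) : 0 < co l z (F * G) := by
  rw [co_mul_expand l F _ (Nat.lt_succ_self _)]
  refine Finset.sum_pos' (fun k _ => mul_nonneg (hF k) (h.nn_op_mul k hG z))
    ⟨e, ?_, mul_pos h1 h2⟩
  by_contra he
  rw [co_eq_zero l (by simp at he; omega)] at h1
  exact lt_irrefl _ h1

/-- a polynomial with full positive support times `p_a p_b` -/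
theorem pos_full {F : ℝ[X]} (hF : NN l F) {a b c : ℕ} (ha : a < N) (hb : b < N) (hc : c < N)
    (hfull : ∀ e, e < N → (e + a + b + c) % 2 = 0 → 0 < co l e F) :
    0 < co l c (F * (op l a * op l b)) := by
  have key : ∀ u v : ℕ, u < N → v < N → ∃ w, w < N ∧ w ≤ u + v ∧ u ≤ w + v ∧ v ≤ w + u ∧
      (u + v + w) % 2 = 0 := by
    intro u v hu hv
    rcases le_total u v with h' | h'
    · exact ⟨v - u, by omega, by omega, by omega, by omega, by omega⟩
    · exact ⟨u - v, by omega, by omega, by omega, by omega, by omega⟩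
  obtain ⟨w, w1, w2, w3, w4, w5⟩ := key a b ha hb
  obtain ⟨e, e1, e2, e3, e4, e5⟩ := key w c w1 hc
  refine h.pos_mul hF (h.nn_small ha hb) (hfull e e1 (by omega)) ?_
  rw [mul_comm]
  refine h.pos_mul (h.nn_small ha hb) (NN.op l e) (h.strict ha hb w2 w3 w4 w5) ?_
  exact h.strict w1 e1 (by omega) (by omega) (by omega) (by omega)

end Per

/-- minus the derivative of `op` in the direction `δ` -/
noncomputable def V (l δ : ℕ → ℝ) : ℕ → ℝ[X]
  | 0 => 0
  | 1 => 0
  | n + 2 => X * V l δ (n + 1) - C (l (n + 1)) * V l δ n + C (δ (n + 1)) * op l n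

@[simp] theorem V_zero (l δ : ℕ → ℝ) : V l δ 0 = 0 := rfl
@[simp] theorem V_one (l δ : ℕ → ℝ) : V l δ 1 = 0 := rfl
theorem V_succ (l δ : ℕ → ℝ) (n : ℕ) : V l δ (n + 2) =
    X * V l δ (n + 1) - C (l (n + 1)) * V l δ n + C (δ (n + 1)) * op l n := rfl

theorem V_natDegree_le (l δ : ℕ → ℝ) (n : ℕ) : (V l δ n).natDegree ≤ n := by
  induction n using two_step with
  | h0 => simp
  | h1 => simp
  | h n h0 h1 =>
    rw [V_succ]
    refine (natDegree_add_le _ _).trans (max_le ((natDegree_sub_le _ _).trans (max_le ?_ ?_)) ?_)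
    · exact natDegree_mul_le.trans (by have := natDegree_X_le (R := ℝ); omega)
    · exact (natDegree_C_mul_le _ _).trans (by omega)
    · exact (natDegree_C_mul_le _ _).trans ((op_natDegree_le l n).trans (by omega))

theorem V_co_zero (l δ : ℕ → ℝ) (B : ℕ) : ∀ e, (B < e + 2 ∨ (B + e) % 2 = 1) →
    co l e (V l δ B) = 0 := by
  induction B using two_step with
  | h0 => simp
  | h1 => simp
  | h n h0 h1 =>
    intro e he
    rw [V_succ, map_add, map_sub, co_C_mul, co_C_mul, co_op, if_neg (by omega), h0 e (by omega)]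
    rcases e with _ | e
    · rw [co_X_zero, h1 1 (by omega)]; simp
    · rw [co_X_succ, h1 e (by omega), h1 (e + 2) (by omega)]; simp

theorem V_congr (l : ℕ → ℝ) {δ δ' : ℕ → ℝ} (n : ℕ) : (∀ i, 0 < i → i < n → δ i = δ' i) →
    V l δ n = V l δ' n := by
  induction n using two_step with
  | h0 => intro; rfl
  | h1 => intro; rfl
  | h n h0 h1 =>
    intro h
    rw [V_succ, V_succ, h0 fun i a b => h i a (by omega), h1 fun i a b => h i a (by omega),
      h (n + 1) (by omega) (by omega)]

theorem mono_aux {l : ℕ → ℝ} {N : ℕ} (hl : ∀ i, 0 < i → i < N → 0 ≤ l i) {x y : ℝ} (hxy : x ≤ y)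
    (hp : ∀ k, k < N → 0 < (op l k).eval x) : ∀ k, k < N →
      (op l k).eval x ≤ (op l k).eval y ∧
      ((op l (k + 1)).eval x + (y - x) * (op l k).eval x) * (op l k).eval y ≤
        (op l (k + 1)).eval y * (op l k).eval x := by
  intro k
  induction k with
  | zero => intro; simp
  | succ k ih =>
    intro hk
    obtain ⟨i1, i2⟩ := ih (by omega)
    have a0 := hp k (by omega)
    have a1 := hp (k + 1) hk
    have l0 := hl (k + 1) (by omega) hk
    have hd : 0 ≤ (y - x) * (op l k).eval x * (op l k).eval y :=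
      mul_nonneg (mul_nonneg (by linarith) a0.le) (by linarith)
    have i3 : (op l (k + 1)).eval x * (op l k).eval y ≤
        (op l (k + 1)).eval y * (op l k).eval x := by nlinarith
    refine ⟨?_, ?_⟩
    · have : (op l (k + 1)).eval x * (op l k).eval x ≤
          (op l (k + 1)).eval y * (op l k).eval x := by nlinarith
      exact le_of_mul_le_mul_right this a0
    · simp only [op_succ, eval_sub, eval_mul, eval_X, eval_C]
      nlinarith [mul_nonneg l0 (sub_nonneg.2 i3)]

theorem mono_ev {l : ℕ → ℝ} {N : ℕ} (hl : ∀ i, 0 < i → i < N → 0 ≤ l i) {x y : ℝ} (hxy : x ≤ y)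
    (hp : ∀ k, k < N → 0 < (op l k).eval x) {k : ℕ} (hk : k < N)
    (h0 : 0 ≤ (op l (k + 1)).eval x) :
    (op l (k + 1)).eval x + (y - x) * (op l k).eval x ≤ (op l (k + 1)).eval y := by
  obtain ⟨i1, i2⟩ := mono_aux hl hxy hp k hk
  have a0 := hp k hk
  have h1 : 0 ≤ (op l (k + 1)).eval x + (y - x) * (op l k).eval x :=
    add_nonneg h0 (mul_nonneg (by linarith) a0.le)
  exact le_of_mul_le_mul_right ((mul_le_mul_of_nonneg_left i1 h1).trans i2) a0

/-- the properties of the perturbation direction -/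
structure Dir (N : ℕ) (l δ : ℕ → ℝ) : Prop where
  A : ∀ B e, e + 2 ≤ B → B ≤ N → (B + e) % 2 = 0 → 0 < co l e (V l δ B)
  B : ∀ B e, e + 2 ≤ B → B < N → (B + e) % 2 = 0 →
    co l e (V l δ B) < co l (N + e) (V l δ N * op l B)

theorem nn_V {N : ℕ} {l δ : ℕ → ℝ}
    (hA : ∀ B e, e + 2 ≤ B → B ≤ N → (B + e) % 2 = 0 → 0 < co l e (V l δ B)) {B : ℕ}
    (hB : B ≤ N) : NN l (V l δ B) := by
  intro e
  by_cases h : B < e + 2 ∨ (B + e) % 2 = 1
  · rw [V_co_zero l δ B e h]
  · exact (hA B e (by omega) hB (by omega)).le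

theorem exists_A {N : ℕ} {l : ℕ → ℝ} (h : Per N l) {y : ℝ}
    (hy : ∀ k, k ≤ N → 0 < (op l k).eval y) :
    ∃ δ : ℕ → ℝ, ∀ B e, e + 2 ≤ B → B ≤ N → (B + e) % 2 = 0 → 0 < co l e (V l δ B) := by
  set p : ℕ → ℝ := fun k => (op l k).eval y with hp
  set w : ℕ → ℕ → ℝ := fun B e => p B * p e / nrm l e with hw
  set δ : ℕ → ℝ := fun B => w (B + 1) (B - 1) - if 2 ≤ B then w B (B - 2) else 0 with hδ
  have hrec : ∀ k, p (k + 2) = y * p (k + 1) - l (k + 1) * p k := by
    intro k; simp [hp, op_succ]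
  have key : ∀ B, B ≤ N → ∀ e, e + 2 ≤ B → (B + e) % 2 = 0 → co l e (V l δ B) = w B e := by
    intro B
    induction B using two_step with
    | h0 => intro _ e he; omega
    | h1 => intro _ e he; omega
    | h n h0 h1 =>
      intro hn e he hpar
      rw [V_succ, map_add, map_sub, co_C_mul, co_C_mul, co_op]
      by_cases hen : e = n
      · subst hen
        rw [if_pos rfl, V_co_zero l δ e e (by omega)]
        rcases e with _ | e
        · rw [co_X_zero]; simp [hδ]
        · rw [co_X_succ, h1 (by omega) e (by omega) (by omega),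
            V_co_zero l δ _ (e + 2) (by omega)]
          simp [hδ]
      · rw [if_neg hen, h0 (by omega) e (by omega) (by omega)]
        obtain ⟨m, rfl⟩ : ∃ m, n = m + 1 := ⟨n - 1, by omega⟩
        rcases e with _ | e
        · rw [co_X_zero, h1 (by omega) 1 (by omega) (by omega)]
          have := (h.pos 1 (by omega) (by omega)).ne'
          simp only [hw, hrec (m + 1), nrm_succ, nrm_zero]
          have p0 : p 0 = 1 := by simp [hp]
          have p1 : p 1 = y := by simp [hp]
          rw [p0, p1]; field_simp; ring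
        · rw [co_X_succ, h1 (by omega) e (by omega) (by omega),
            h1 (by omega) (e + 2) (by omega) (by omega)]
          have n0 := (h.nrm_pos e (by omega)).ne'
          have n1 := (h.pos (e + 1) (by omega) (by omega)).ne'
          have n2 := (h.pos (e + 2) (by omega) (by omega)).ne'
          simp only [hw, hrec (m + 1), hrec e, nrm_succ]
          field_simp; ring
  refine ⟨δ, fun B e h1 h2 h3 => ?_⟩
  rw [key B h2 e h1 h3]
  exact div_pos (mul_pos (hy B h2) (hy e (by omega))) (h.nrm_pos e (by omega))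

theorem exists_dir {N : ℕ} {l : ℕ → ℝ} (h : Per N l) {y : ℝ}
    (hy : ∀ k, k ≤ N → 0 < (op l k).eval y) : ∃ δ : ℕ → ℝ, Dir N l δ := by
  obtain ⟨δ, hA⟩ := exists_A h hy
  obtain ⟨n, rfl⟩ : ∃ n, N = n + 2 := ⟨N - 2, by have := h.three; omega⟩
  have ev : ∀ᶠ M : ℝ in Filter.atTop, ∀ B ∈ range (n + 2), ∀ e ∈ range (n + 2),
      e + 2 ≤ B → (B + e) % 2 = 0 →
        co l e (V l δ B) < M * co l (n + 2 + e) (op l n * op l B) := by
    simp only [Filter.eventually_all_finset]
    intro B hB e he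
    by_cases hc : e + 2 ≤ B ∧ (B + e) % 2 = 0
    · have hpos : 0 < co l (n + 2 + e) (op l n * op l B) := by
        simp only [mem_range] at hB he
        have := h.odd
        exact h.nlp' (by omega) hB (by omega) (by omega) (by omega) (by omega)
      filter_upwards [(Filter.tendsto_id.atTop_mul_const hpos).eventually_gt_atTop
        (co l e (V l δ B))] with M hM _ _ using hM
    · exact Filter.Eventually.of_forall fun M h1 h2 => (hc ⟨h1, h2⟩).elim
  obtain ⟨M, hM0, hM⟩ := ((Filter.eventually_ge_atTop 0).and ev).exists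
  set δ' : ℕ → ℝ := fun i => if i = n + 1 then δ i + M else δ i with hδ'
  have e1 : ∀ B, B < n + 2 → V l δ' B = V l δ B := fun B hB =>
    V_congr l B fun i _ hi => by simp only [hδ']; rw [if_neg (by omega)]
  have e2 : V l δ' (n + 2) = V l δ (n + 2) + C M * op l n := by
    rw [V_succ, V_succ, e1 _ (by omega), e1 _ (by omega)]
    simp only [hδ', if_true, C_add]; ring
  refine ⟨δ', fun B e h1 h2 h3 => ?_, fun B e h1 h2 h3 => ?_⟩
  · rcases h2.lt_or_eq with h4 | rfl
    · rw [e1 B h4]; exact hA B e h1 h2 h3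
    · rw [e2, map_add]
      exact add_pos_of_pos_of_nonneg (hA _ e h1 h2 h3) ((NN.op l n).smul hM0 e)
  · rw [e1 B h2, e2, add_mul, map_add, mul_assoc, co_C_mul]
    have := hM B (by simpa using h2) e (by simp; omega) h1 h3
    have h5 := h.nn_mul (nn_V hA le_rfl) (NN.op l B) (n + 2 + e)
    linarith

end Pool.Agent.MP_5cc272_an.H57
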