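import Pool.Agent.MP_5cc272_an.H57.Second

open Polynomial Finset Filter Topology

namespace Pool.Agent.MP_5cc272_an.H57

theorem cont2 (F : ℝ[X][X]) : Continuous fun p : ℝ × ℝ => F.evalEval p.1 p.2 := by
  induction F using Polynomial.induction_on' with
  | add p q hp hq => simp only [evalEval_add]; exact hp.add hq
  | monomial n a =>
    simp only [← C_mul_X_pow_eq_monomial, evalEval_mul, evalEval_C, evalEval_pow, evalEval_X]
    exact (a.continuous.comp continuous_fst).mul (continuous_snd.pow n)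

theorem ee_ι (F : ℝ[X]) (s x : ℝ) : (ι F).evalEval s x = F.eval x := by
  simp [ι, evalEval_map_C]

theorem ee_T (s x : ℝ) : T.evalEval s x = s := by simp [T, evalEval_C]

theorem ee_two (s x : ℝ) : (2 : ℝ[X][X]).evalEval s x = 2 := by simp [evalEval]

theorem ee_three (s x : ℝ) : (3 : ℝ[X][X]).evalEval s x = 3 := by simp [evalEval]

theorem ee_zero {F : ℝ[X][X]} {G : ℝ[X]} (h : T ^ 4 ∣ F - ι G) (x : ℝ) :
    F.evalEval 0 x = G.eval x := by
  obtain ⟨g, e⟩ := h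
  rw [sub_eq_iff_eq_add] at e
  rw [e, evalEval_add, evalEval_mul, evalEval_pow, ee_T, ee_ι]; simp

theorem nrm_add {R : Type*} [CommRing R] (l : ℕ → R) (s a : ℕ) :
    nrm l (s + a) = nrm l s * nrm (sh l s) a := by
  simp only [nrm, Finset.prod_range_add, sh, add_assoc]

theorem ev_LS (N : ℕ) (l δ : ℕ → ℝ) (s x : ℝ) (n : ℕ) :
    (op (LS N l δ s) n).eval x = (op (LL N l δ) n).evalEval s x := by
  rw [op_LS, map_evalRingHom_eval]

theorem step_root {N : ℕ} {l : ℕ → ℝ} (h : Per N l) (δ : ℕ → ℝ) {ρ : ℝ}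
    (root : (op l N).eval ρ = 0) (pos : ∀ k, k < N → 0 < (op l k).eval ρ) {P : ℝ → Prop}
    (hP : ∀ᶠ x in 𝓝 ρ, P x) :
    ∀ᶠ s in 𝓝[>] (0 : ℝ), ∃ ρ', ρ ≤ ρ' ∧ P ρ' ∧ (op (LS N l δ s) (N * 3)).eval ρ' = 0 ∧
      (∀ k, k < N * 3 → 0 < (op (LS N l δ s) k).eval ρ') ∧
      ((op (LS N l δ s) (N * 2)).eval ρ') ^ 2 < 7 / 4 * nrm (LS N l δ s) (N * 2) := by
  have h3 := h.three
  set L := LL N l δ with hL
  have p1 := h.pert_sh δ 1
  have p2 := h.pert_sh δ 2
  rw [← hL] at p1 p2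
  obtain ⟨g1, e1⟩ := p1.op4 N
  obtain ⟨g2, e2⟩ := p2.op4 N
  rw [sub_eq_iff_eq_add] at e1 e2
  set Θ := nrm l (N - 1) with hΘ
  have Θpos : 0 < Θ := h.nrm_pos _ (by omega)
  have hw : (op l (N - 1)).eval ρ * (asp l N).eval ρ = Θ := by
    rw [← eval_mul, h.wr]; simp [root, hΘ]
  set n1 : ℝ[X] := nrm (sh L (N * 1)) (N - 1) with hn1
  have n10 : n1.eval 0 = Θ := by
    rw [hn1, hΘ, nrm, nrm, eval_prod]
    refine Finset.prod_congr rfl fun i hi => ?_
    simp only [mem_range] at hi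
    rw [sh, hL, h.LL_mul_add δ 1 (by omega), if_neg (by omega)]; simp
  have hnrm : ∀ s, nrm (LS N l δ s) (N * 2) = s ^ 12 * (6 * Θ * n1.eval s) := by
    intro s
    have : nrm L (N * 2) = C Θ * (X ^ 6 * C 2) * n1 * (X ^ 6 * C 3) := by
      rw [show N * 2 = (N - 1 + 1) + (N - 1) + 1 by omega, nrm_succ, nrm_add, nrm_succ,
        show N - 1 + 1 = N by omega, show N + (N - 1) + 1 = N * 2 by omega, hL, h.LL_one,
        h.LL_two, hn1, mul_one, hΘ]
      congr 3
      rw [nrm, nrm, map_prod]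
      exact Finset.prod_congr rfl fun i hi => h.LL_low δ (by simp at hi; omega)
    have e : nrm (LS N l δ s) (N * 2) = (nrm L (N * 2)).eval s := by
      rw [nrm, nrm, eval_prod]; rfl
    rw [e, this]; simp; ring
  let f1 : ℕ → (ℝ × ℝ) × ℝ → ℝ := fun a z =>
    z.2 * (op (sh L (N * 1)) a).evalEval z.1.1 z.1.2 -
      2 * z.1.1 ^ 3 * (op l (N - 1)).eval z.1.2 * (asp (sh L (N * 1)) a).evalEval z.1.1 z.1.2
  let m : (ℝ × ℝ) × ℝ → ℝ := fun z =>
    z.2 * (z.2 + z.1.1 * g1.evalEval z.1.1 z.1.2) -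
      2 * (op l (N - 1)).eval z.1.2 * (asp (sh L (N * 1)) N).evalEval z.1.1 z.1.2
  let f2 : ℕ → (ℝ × ℝ) × ℝ → ℝ := fun a z =>
    m z * (op (sh L (N * 2)) a).evalEval z.1.1 z.1.2 -
      3 * z.1.1 ^ 3 * f1 (N - 1) z * (asp (sh L (N * 2)) a).evalEval z.1.1 z.1.2
  let φ : (ℝ × ℝ) × ℝ → ℝ := fun z =>
    m z * (z.2 + z.1.1 * g2.evalEval z.1.1 z.1.2) -
      3 * f1 (N - 1) z * (asp (sh L (N * 2)) N).evalEval z.1.1 z.1.2
  have c2 : ∀ F : ℝ[X][X], Continuous fun z : (ℝ × ℝ) × ℝ => F.evalEval z.1.1 z.1.2 :=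
    fun F => (cont2 F).comp continuous_fst
  have c1 : ∀ F : ℝ[X], Continuous fun z : (ℝ × ℝ) × ℝ => F.eval z.1.2 :=
    fun F => F.continuous.comp (continuous_snd.comp continuous_fst)
  have cs : Continuous fun z : (ℝ × ℝ) × ℝ => z.1.1 := continuous_fst.comp continuous_fst
  have cf1 : ∀ a, Continuous (f1 a) := fun a =>
    (continuous_snd.mul (c2 _)).sub
      (((continuous_const.mul (cs.pow 3)).mul (c1 _)).mul (c2 _))
  have cm : Continuous m :=
    (continuous_snd.mul (continuous_snd.add (cs.mul (c2 _)))).sub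
      ((continuous_const.mul (c1 _)).mul (c2 _))
  have cf2 : ∀ a, Continuous (f2 a) := fun a =>
    (cm.mul (c2 _)).sub (((continuous_const.mul (cs.pow 3)).mul (cf1 _)).mul (c2 _))
  have cφ : Continuous φ :=
    (cm.mul (continuous_snd.add (cs.mul (c2 _)))).sub
      ((continuous_const.mul (cf1 _)).mul (c2 _))
  have vf1 : ∀ a v, f1 a ((0, ρ), v) = v * (op l a).eval ρ := fun a v => by
    simp only [f1, ee_zero (p1.op4 a)]; ring
  have vm : ∀ v, m ((0, ρ), v) = v ^ 2 - 2 * Θ := fun v => by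
    simp only [m, ee_zero (p1.asp4 N), ← hw]; ring
  have vf2 : ∀ a v, f2 a ((0, ρ), v) = (v ^ 2 - 2 * Θ) * (op l a).eval ρ := fun a v => by
    simp only [f2, vm, ee_zero (p2.op4 a)]; ring
  have vφ : ∀ v, φ ((0, ρ), v) = v * (v ^ 2 - 5 * Θ) := fun v => by
    simp only [φ, vm, vf1, ee_zero (p2.asp4 N), ← hw]; ring
  have E1 : ∀ s x v a, (op l N).eval x = s ^ 3 * v →
      (op L (N + a)).evalEval s x = s ^ 3 * f1 a ((s, x), v) := by
    intro s x v a hv
    rw [hL, h.op_blk1 δ a, ← hL]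
    simp only [evalEval_sub, evalEval_mul, evalEval_pow, ee_T, ee_ι, hv, f1, ee_two]
    ring
  have EM : ∀ s x v, (op l N).eval x = s ^ 3 * v →
      (op L (N + N)).evalEval s x = s ^ 6 * m ((s, x), v) := by
    intro s x v hv
    rw [E1 s x v N hv]
    simp only [f1, m, e1, evalEval_add, evalEval_mul, evalEval_pow, ee_T, ee_ι, hv]
    ring
  have E2 : ∀ s x v a, (op l N).eval x = s ^ 3 * v →
      (op L (N * 2 + a)).evalEval s x = s ^ 6 * f2 a ((s, x), v) := by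
    intro s x v a hv
    rw [hL, h.op_blk2 δ a, ← hL]
    simp only [evalEval_sub, evalEval_mul, evalEval_pow, ee_T, EM s x v hv, E1 s x v _ hv, f2,
      ee_three]
    ring
  have E3 : ∀ s x v, (op l N).eval x = s ^ 3 * v →
      (op L (N * 3)).evalEval s x = s ^ 9 * φ ((s, x), v) := by
    intro s x v hv
    rw [show N * 3 = N * 2 + N by ring, E2 s x v N hv]
    simp only [f2, φ, e2, evalEval_add, evalEval_mul, evalEval_pow, ee_T, ee_ι, hv]
    ring
  set v0 := √(24 / 5 * Θ) with hv0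
  set v1 := √(26 / 5 * Θ) with hv1
  have v0p : 0 < v0 := Real.sqrt_pos.2 (by positivity)
  have v0s : v0 ^ 2 = 24 / 5 * Θ := Real.sq_sqrt (by positivity)
  have v1s : v1 ^ 2 = 26 / 5 * Θ := Real.sq_sqrt (by positivity)
  have v01 : v0 ≤ v1 := Real.sqrt_le_sqrt (by linarith)
  have A1 : ∀ᶠ p in 𝓝 ((0 : ℝ), ρ), ∀ v ∈ Set.Icc v0 v1,
      (∀ a ∈ range N, 0 < f1 a (p, v) ∧ 0 < f2 a (p, v)) ∧
        m (p, v) ^ 2 < 7 / 4 * (6 * Θ * n1.eval p.1) := by
    refine isCompact_Icc.eventually_forall_of_forall_eventually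
      (P := fun p v => (∀ a ∈ range N, 0 < f1 a (p, v) ∧ 0 < f2 a (p, v)) ∧
        m (p, v) ^ 2 < 7 / 4 * (6 * Θ * n1.eval p.1)) fun v hv => ?_
    have w0 : v0 ^ 2 ≤ v ^ 2 := pow_le_pow_left₀ v0p.le hv.1 2
    have w1 : v ^ 2 ≤ v1 ^ 2 := pow_le_pow_left₀ (v0p.le.trans hv.1) hv.2 2
    refine Eventually.and ((eventually_all_finset _).2 fun a ha => Eventually.and ?_ ?_) ?_
    · refine (cf1 a).continuousAt.eventually (lt_mem_nhds ?_)
      rw [vf1]; exact mul_pos (v0p.trans_le hv.1) (pos a (by simpa using ha))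
    · refine (cf2 a).continuousAt.eventually (lt_mem_nhds ?_)
      rw [vf2]; exact mul_pos (by linarith) (pos a (by simpa using ha))
    · refine ContinuousAt.eventually_lt (f := fun z => m z ^ 2)
        (g := fun z : (ℝ × ℝ) × ℝ => 7 / 4 * (6 * Θ * n1.eval z.1.1)) (cm.pow 2).continuousAt
        (continuous_const.mul (continuous_const.mul (n1.continuous.comp cs))).continuousAt ?_
      simp only [vm, n10]
      nlinarith
  have A2 : ∀ᶠ p in 𝓝 ((0 : ℝ), ρ), φ (p, v0) < 0 := by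
    refine (cφ.comp (Continuous.prodMk_left v0)).continuousAt.eventually (gt_mem_nhds ?_)
    simp only [Function.comp, vφ]; exact mul_neg_of_pos_of_neg v0p (by linarith)
  have A3 : ∀ᶠ p in 𝓝 ((0 : ℝ), ρ), 0 < φ (p, v1) := by
    refine (cφ.comp (Continuous.prodMk_left v1)).continuousAt.eventually (lt_mem_nhds ?_)
    simp only [Function.comp, vφ]; exact mul_pos (v0p.trans_le v01) (by linarith)
  have A4 : ∀ᶠ p : ℝ × ℝ in 𝓝 ((0 : ℝ), ρ), P p.2 := continuous_snd.continuousAt.eventually hP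
  obtain ⟨η, ηp, hη⟩ := Metric.eventually_nhds_iff.1 (A1.and (A2.and (A3.and A4)))
  have hl : ∀ i, 0 < i → i < N → 0 ≤ l i := fun i a b => (h.pos i a b).le
  have posx : ∀ x, ρ ≤ x → ∀ k, k < N → 0 < (op l k).eval x := fun x hx k hk =>
    (pos k hk).trans_le (mono_aux hl hx pos k hk).1
  have monoN : ∀ x y, ρ ≤ x → x ≤ y → 0 ≤ (op l N).eval x →
      (op l N).eval x + (y - x) * (op l (N - 1)).eval x ≤ (op l N).eval y := by
    intro x y hx hxy h0
    have := mono_ev hl hxy (posx x hx) (k := N - 1) (by omega)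
    rw [show N - 1 + 1 = N by omega] at this
    exact this h0
  have wpos : 0 < (op l N).eval (ρ + η / 2) := by
    have := monoN ρ (ρ + η / 2) le_rfl (by linarith) root.ge
    have h2 := pos (N - 1) (by omega)
    rw [root] at this
    nlinarith
  have B1 : ∀ᶠ s in 𝓝 (0 : ℝ), s ^ 3 * v1 < (op l N).eval (ρ + η / 2) :=
    ((continuous_pow 3).mul continuous_const).continuousAt.eventually
      (gt_mem_nhds (by simpa using wpos))
  filter_upwards [nhdsWithin_le_nhds B1, self_mem_nhdsWithin,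
    nhdsWithin_le_nhds (gt_mem_nhds ηp)] with s b1 (sp : 0 < s) sη
  have s3 : 0 < s ^ 3 := pow_pos sp 3
  have near : ∀ x, ρ ≤ x → x ≤ ρ + η / 2 → dist (s, x) ((0 : ℝ), ρ) < η := by
    intro x a b
    rw [Prod.dist_eq, Real.dist_eq, Real.dist_eq, max_lt_iff, abs_lt, abs_lt]
    constructor <;> constructor <;> linarith
  obtain ⟨x1, ⟨a1, b1'⟩, hx1⟩ := intermediate_value_Icc (by linarith : ρ ≤ ρ + η / 2)
    (op l N).continuous.continuousOn (a := ρ)
    (show s ^ 3 * v1 ∈ Set.Icc _ _ from ⟨by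
      simp only [root]; exact (mul_pos s3 (v0p.trans_le v01)).le, b1.le⟩)
  obtain ⟨x0, ⟨a0, b0⟩, hx0⟩ := intermediate_value_Icc a1
    (op l N).continuous.continuousOn
    (show s ^ 3 * v0 ∈ Set.Icc _ _ from ⟨by
      simp only [root]; exact (mul_pos s3 v0p).le, by
      simp only [hx1]; exact mul_le_mul_of_nonneg_left v01 s3.le⟩)
  simp only at hx0 hx1
  obtain ⟨x, ⟨a, b⟩, hx⟩ := intermediate_value_Icc b0
    (op (LS N l δ s) (N * 3)).continuous.continuousOn
    (show (0 : ℝ) ∈ Set.Icc _ _ from ⟨by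
      simp only [ev_LS, ← hL, E3 s x0 v0 hx0]
      exact (mul_neg_of_pos_of_neg (pow_pos sp 9) (hη (near x0 a0 (b0.trans b1'))).2.1).le, by
      simp only [ev_LS, ← hL, E3 s x1 v1 hx1]
      exact (mul_pos (pow_pos sp 9) (hη (near x1 a1 b1')).2.2.1).le⟩)
  have hρx : ρ ≤ x := a0.trans a
  obtain ⟨Q1, -, -, Q4⟩ := hη (near x hρx (b.trans b1'))
  have lo : s ^ 3 * v0 ≤ (op l N).eval x := by
    have := monoN x0 x a0 a (by rw [hx0]; exact (mul_pos s3 v0p).le)
    have h2 := mul_nonneg (sub_nonneg.2 a) (posx x0 a0 (N - 1) (by omega)).le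
    linarith
  have hi : (op l N).eval x ≤ s ^ 3 * v1 := by
    have := monoN x x1 hρx b ((mul_pos s3 v0p).le.trans lo)
    have h2 := mul_nonneg (sub_nonneg.2 b) (posx x hρx (N - 1) (by omega)).le
    linarith
  set v := (op l N).eval x / s ^ 3 with hvdef
  have hv : (op l N).eval x = s ^ 3 * v := by rw [hvdef]; field_simp
  obtain ⟨Q5, Q6⟩ := Q1 v ⟨le_of_mul_le_mul_left (hv ▸ lo) s3, le_of_mul_le_mul_left (hv ▸ hi) s3⟩
  refine ⟨x, hρx, Q4, hx, fun k hk => ?_, ?_⟩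
  · rw [ev_LS, ← hL]
    by_cases k1 : k < N
    · rw [hL, h.op_low δ k1.le, ee_ι]; exact posx x hρx k k1
    by_cases k2 : k < N * 2
    · obtain ⟨a, rfl⟩ := Nat.exists_eq_add_of_le (not_lt.1 k1)
      rw [E1 s x v a hv]; exact mul_pos s3 (Q5 a (by simp; omega)).1
    · obtain ⟨a, rfl⟩ := Nat.exists_eq_add_of_le (not_lt.1 k2)
      rw [E2 s x v a hv]; exact mul_pos (pow_pos sp 6) (Q5 a (by simp; omega)).2
  · rw [hnrm, ev_LS, ← hL, show N * 2 = N + N by ring, EM s x v hv]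
    have := mul_lt_mul_of_pos_left Q6 (pow_pos sp 12)
    simp only at this
    nlinarith

/-- the invariant of the construction -/
structure Good (j : ℕ) (l : ℕ → ℝ) (ρ : ℝ) : Prop where
  per : Per (3 ^ (j + 1)) l
  root : (op l (3 ^ (j + 1))).eval ρ = 0
  pos : ∀ k, k < 3 ^ (j + 1) → 0 < (op l k).eval ρ
  hb : ∀ i, i ≤ j → ((op l (3 ^ i * 2)).eval ρ) ^ 2 < 7 / 4 * nrm l (3 ^ i * 2)

theorem step {j : ℕ} {l : ℕ → ℝ} {ρ : ℝ} (h : Good j l ρ) {ε : ℝ} (hε : 0 < ε) :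
    ∃ l' ρ', Good (j + 1) l' ρ' ∧ (∀ i, i < 3 ^ (j + 1) → l' i = l i) ∧ ρ ≤ ρ' ∧ ρ' ≤ ρ + ε := by
  set N := 3 ^ (j + 1) with hN
  have h3 := h.per.three
  have hl : ∀ i, 0 < i → i < N → 0 ≤ l i := fun i a b => (h.per.pos i a b).le
  have hy : ∀ k, k ≤ N → 0 < (op l k).eval (ρ + 1) := by
    intro k hk
    rcases hk.lt_or_eq with hk | rfl
    · exact (h.pos k hk).trans_le (mono_aux hl (by linarith) h.pos k hk).1
    · have := mono_ev hl (show ρ ≤ ρ + 1 by linarith) h.pos (k := N - 1) (by omega)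
      rw [show N - 1 + 1 = N by omega, h.root] at this
      have h2 := h.pos (N - 1) (by omega)
      linarith [this le_rfl]
  obtain ⟨δ, hd⟩ := exists_dir h.per hy
  have hP : ∀ᶠ x in 𝓝 ρ, x < ρ + ε ∧ ∀ i ∈ range (j + 1),
      ((op l (3 ^ i * 2)).eval x) ^ 2 < 7 / 4 * nrm l (3 ^ i * 2) := by
    refine (gt_mem_nhds (by linarith)).and ((eventually_all_finset _).2 fun i hi => ?_)
    exact ((op l _).continuous.pow 2).continuousAt.eventually
      (gt_mem_nhds (h.hb i (by simp at hi; omega)))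
  obtain ⟨s, hs1, ρ', r1, ⟨r2, r3⟩, r4, r5, r6⟩ :=
    ((per_step h.per hd).and (step_root h.per δ h.root h.pos hP)).exists
  have low : ∀ i, i < N → LS N l δ s i = l i := fun i hi => by
    rw [LS, h.per.LL_low δ hi, eval_C]
  refine ⟨LS N l δ s, ρ', ⟨by rwa [pow_succ], by rwa [pow_succ], by rwa [pow_succ],
    fun i hi => ?_⟩, low, r1, r2.le⟩
  rcases hi.lt_or_eq with hi | rfl
  · have hlt : 3 ^ i * 2 < N := by
      have : 3 ^ (i + 1) ≤ N := Nat.pow_le_pow_right (by norm_num) (by omega)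
      have h2 : 0 < 3 ^ i := by positivity
      rw [pow_succ] at this; omega
    rw [op_congr (l' := l) _ fun k _ hk => low k (by omega)]
    have : nrm (LS N l δ s) (3 ^ i * 2) = nrm l (3 ^ i * 2) :=
      Finset.prod_congr rfl fun k hk => low _ (by simp at hk; omega)
    rw [this]; exact r3 i (by simp; omega)
  · exact r6

end Pool.Agent.MP_5cc272_an.H57
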