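import Pool.Agent.MP_5cc272_an.H57.First

open Polynomial Finset Filter Topology

namespace Pool.Agent.MP_5cc272_an.H57

/-- sizes of the links between blocks -/
noncomputable def kp (N i : ℕ) : ℝ :=
  if i % N = 0 then (if (i / N) % 3 = 0 then 0 else if (i / N) % 3 = 1 then 2 else 3) else 0

/-- the new recurrence coefficients, as polynomials in the parameter -/
noncomputable def LL (N : ℕ) (l δ : ℕ → ℝ) (i : ℕ) : ℝ[X] :=
  C (l i) + X ^ 4 * C (bd N δ th i) + X ^ 6 * C (kp N i)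

theorem pert_LL (N : ℕ) (l δ : ℕ → ℝ) : Pert (LL N l δ) l (bd N δ th) :=
  fun i _ => ⟨C (kp N i), by rw [LL]; ring⟩

theorem Pert.shift {L : ℕ → ℝ[X]} {l δ : ℕ → ℝ} (h : Pert L l δ) (s : ℕ) :
    Pert (sh L s) (sh l s) (sh δ s) := fun i _ => h (s + i) (by omega)

theorem Pert.asp4 {L : ℕ → ℝ[X]} {l δ : ℕ → ℝ} (h : Pert L l δ) (a : ℕ) :
    T ^ 4 ∣ asp L a - ι (asp l a) := by
  rcases a with _ | a
  · simp [asp]
  · exact (h.shift 1).op4 a

theorem mk_eq {R : Type*} [CommRing R] {t a b : R} :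
    Ideal.Quotient.mk (Ideal.span {t}) a = Ideal.Quotient.mk (Ideal.span {t}) b ↔ t ∣ a - b := by
  rw [Ideal.Quotient.eq, Ideal.mem_span_singleton]

namespace Per
variable {N : ℕ} {l : ℕ → ℝ} (h : Per N l) (δ : ℕ → ℝ)
include h

theorem LL_mul_add (r : ℕ) {i : ℕ} (hi : i < N) : LL N l δ (N * r + i) =
    if i = 0 then X ^ 6 * C (if r % 3 = 0 then 0 else if r % 3 = 1 then 2 else 3)
    else C (l i) + X ^ 4 * C (th r * δ i) := by
  have m1 : (N * r + i) % N = i := by rw [Nat.mul_add_mod]; exact Nat.mod_eq_of_lt hi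
  have m2 : (N * r + i) / N = r := by
    rw [Nat.mul_add_div (by omega), Nat.div_eq_of_lt hi, add_zero]
  simp only [LL, bd, kp, m1, m2, h.per_mul]
  split_ifs with h0 <;> simp [h0, h.zero]

theorem LL_per (i : ℕ) : LL N l δ (N * 3 + i) = LL N l δ i := by
  have h3 := h.three
  have e := (Nat.div_add_mod i N).symm
  have hi : i % N < N := Nat.mod_lt _ (by omega)
  rw [e, show N * 3 + (N * (i / N) + i % N) = N * (i / N + 3) + i % N by ring,
    h.LL_mul_add δ _ hi, h.LL_mul_add δ _ hi]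
  simp [th]

theorem LL_zero : LL N l δ 0 = 0 := by
  have h3 := h.three
  simpa using h.LL_mul_add δ 0 (i := 0) (by omega)

theorem LL_one : LL N l δ N = X ^ 6 * C 2 := by
  have h3 := h.three
  simpa using h.LL_mul_add δ 1 (i := 0) (by omega)

theorem LL_two : LL N l δ (N * 2) = X ^ 6 * C 3 := by
  have h3 := h.three
  simpa using h.LL_mul_add δ 2 (i := 0) (by omega)

theorem LL_low {i : ℕ} (hi : i < N) : LL N l δ i = C (l i) := by
  have := h.LL_mul_add δ 0 hi
  simp only [mul_zero, zero_add] at this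
  rw [this]; split_ifs with h0 <;> simp [h0, h.zero, th]

theorem op_low {a : ℕ} (ha : a ≤ N) : op (LL N l δ) a = ι (op l a) := by
  rw [ι, coe_mapRingHom, op_map]
  exact op_congr a fun i _ hi => h.LL_low δ (by omega)

theorem pert_sh (r : ℕ) : Pert (sh (LL N l δ) (N * r)) l (sh (bd N δ th) (N * r)) := by
  have := (pert_LL N l δ).shift (N * r)
  rwa [h.sh_mul] at this

theorem q_top (r : ℕ) : T ^ 6 ∣ op (sh (LL N l δ) (N * r)) N -
    (ι (op l N) - T ^ 4 * ι (C (th r) * V l δ N)) := by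
  have h3 := h.three
  have e2 : V l (sh (bd N δ th) (N * r)) N = V l (fun i => th r * δ i) N := by
    refine V_congr l N fun i hi hi' => ?_
    have m1 : (N * r + i) % N = i := by rw [Nat.mul_add_mod]; exact Nat.mod_eq_of_lt (by omega)
    have m2 : (N * r + i) / N = r := by
      rw [Nat.mul_add_div (by omega), Nat.div_eq_of_lt (by omega), add_zero]
    simp only [sh, bd, m1, m2]; rw [if_neg (by omega)]
  have := (h.pert_sh δ r).op6 N
  rwa [e2, V_smul] at this

theorem op_blk1 (a : ℕ) : op (LL N l δ) (N + a) =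
    ι (op l N) * op (sh (LL N l δ) (N * 1)) a -
      T ^ 6 * 2 * ι (op l (N - 1)) * asp (sh (LL N l δ) (N * 1)) a := by
  have h3 := h.three
  obtain ⟨n, rfl⟩ : ∃ n, N = n + 1 := ⟨N - 1, by omega⟩
  rw [block, h.LL_one, h.op_low δ le_rfl, h.op_low δ (Nat.le_succ n)]
  simp only [mul_one, map_mul, map_pow, map_ofNat, Nat.add_sub_cancel]

theorem op_blk2 (a : ℕ) : op (LL N l δ) (N * 2 + a) =
    op (LL N l δ) (N + N) * op (sh (LL N l δ) (N * 2)) a -
      T ^ 6 * 3 * op (LL N l δ) (N + (N - 1)) * asp (sh (LL N l δ) (N * 2)) a := by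
  have h3 := h.three
  have e : N * 2 = (N + (N - 1)) + 1 := by omega
  have := block (LL N l δ) (N + (N - 1)) a
  rw [← e, h.LL_two] at this
  rw [this, show N + N = N * 2 by ring]
  simp only [map_mul, map_pow, map_ofNat]

theorem wr : op l (N - 1) * asp l N = C (nrm l (N - 1)) + op l N * asp l (N - 1) := by
  have h3 := h.three
  obtain ⟨n, rfl⟩ : ∃ n, N = n + 1 := ⟨N - 1, by omega⟩
  rw [Nat.add_sub_cancel, ← wronski]; ring

theorem second_order {a b c : ℕ} (hc : c < N) :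
    X ^ 10 ∣ co (LL N l δ) (N * 2 + c) (op (LL N l δ) (N * 2 + a) * op (LL N l δ) (N * 2 + b)) -
      (X ^ 6 * C (nrm l (N - 1) * co l c (op l a * op l b)) +
        X ^ 8 * C (2 * co l c (V l δ N * V l δ N * (op l a * op l b)))) := by
  set L := LL N l δ with hLdef
  have hL : Pert L l (bd N δ th) := pert_LL N l δ
  have p1 := h.pert_sh δ 1
  have p2 := h.pert_sh δ 2
  obtain ⟨g1, e1⟩ := h.q_top δ 1
  obtain ⟨g2, e2⟩ := h.q_top δ 2
  have t1 : th 1 = 1 := by simp [th]
  have t2 : th 2 = 2 := by simp [th]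
  rw [t1, C_1, one_mul] at e1
  rw [t2, map_mul, ι_C, map_ofNat, map_ofNat] at e2
  have eM := h.op_blk1 δ N
  have eA := h.op_blk1 δ (N - 1)
  have e3 := h.op_blk2 δ N
  have ea := h.op_blk2 δ a
  have eb := h.op_blk2 δ b
  rw [← hLdef] at e1 e2 eM eA e3 ea eb p1 p2
  set F6 : ℝ[X] := op l N ^ 2 * (op l (N - 1) * asp l N * (op l a * op l b)) -
    op l N ^ 3 * (3 * op l (N - 1) * (op l a * asp l b + asp l a * op l b)) with hF6
  set F8 : ℝ[X] := op l N ^ 2 * (2 * (V l δ N * V l δ N * (op l a * op l b))) with hF8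
  have m4 : ∀ {u v : ℝ[X][X]}, T ^ 4 ∣ u - v → Ideal.Quotient.mk (Ideal.span {T ^ 4}) u =
      Ideal.Quotient.mk (Ideal.span {T ^ 4}) v := fun h => mk_eq.2 h
  have m2 : ∀ {u v : ℝ[X][X]}, T ^ 4 ∣ u - v → Ideal.Quotient.mk (Ideal.span {T ^ 2}) u =
      Ideal.Quotient.mk (Ideal.span {T ^ 2}) v :=
    fun h => mk_eq.2 ((pow_dvd_pow T (by norm_num)).trans h)
  have z4 : Ideal.Quotient.mk (Ideal.span {T ^ 4}) (T ^ 6) = 0 := by
    rw [← map_zero (Ideal.Quotient.mk _)]; exact m4 ⟨T ^ 2, by ring⟩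
  have z2 : Ideal.Quotient.mk (Ideal.span {T ^ 2}) (T ^ 6) = 0 := by
    rw [← map_zero (Ideal.Quotient.mk _)]; exact m2 ⟨T ^ 2, by ring⟩
  have z2' : Ideal.Quotient.mk (Ideal.span {T ^ 2}) (T ^ 2) = 0 := by
    rw [← map_zero (Ideal.Quotient.mk _)]; exact mk_eq.2 ⟨1, by ring⟩
  set M := op L (N + N)
  set A := op L (N + (N - 1))
  set qa := op (sh L (N * 2)) a
  set qb := op (sh L (N * 2)) b
  set ta := asp (sh L (N * 2)) a
  set tb := asp (sh L (N * 2)) b
  set G := (ι (op l N) + op (sh L (N * 1)) N - op (sh L (N * 2)) N) * qa * qb with hG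
  obtain ⟨k8, d8⟩ : T ^ 2 ∣ M * qa * qb * (2 * ι (V l δ N) - T ^ 2 * g2) *
      (ι (V l δ N) + T ^ 2 * (g1 - g2)) - ι F8 := by
    rw [← mk_eq, eM]
    simp only [hF8, map_mul, map_sub, map_add, z2, z2', m2 (p1.op4 N), m2 (p2.op4 a),
      m2 (p2.op4 b), qa, qb, map_ofNat, map_pow (ι)]
    rw [map_pow]; ring
  obtain ⟨k6, d6⟩ : T ^ 4 ∣ -2 * M * qa * qb * ι (op l (N - 1)) * asp (sh L (N * 1)) N +
      3 * A * asp (sh L (N * 2)) N * G - 3 * M * A * (qa * tb + ta * qb) - ι F6 := by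
    rw [← mk_eq, eM, eA]
    simp only [hF6, hG, map_mul, map_sub, map_add, map_neg, z4, m4 (p1.op4 N), m4 (p2.op4 a),
      m4 (p2.op4 b), m4 (p2.op4 N), m4 (p1.op4 (N - 1)), m4 (p1.asp4 N), m4 (p2.asp4 N),
      m4 (p2.asp4 a), m4 (p2.asp4 b), qa, qb, ta, tb, map_ofNat, map_pow (ι)]
    rw [map_pow, map_pow]; ring
  have main : T ^ 10 ∣ op L (N * 2 + a) * op L (N * 2 + b) -
      (op L (N * 2 + N) * G + T ^ 6 * ι F6 + T ^ 8 * ι F8) := by
    refine ⟨k8 + k6 + T ^ 2 * 9 * A ^ 2 * ta * tb, ?_⟩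
    rw [ea, eb, e3]
    rw [sub_eq_iff_eq_add] at e1 e2
    linear_combination T ^ 8 * d8 + T ^ 6 * d6 + M * qa * qb * eM +
      (-M * op (sh L (N * 2)) N) * hG +
      (M * qa * qb * (ι (op l N) - op (sh L (N * 2)) N)) * (e1 - e2) +
      (-M * qa * qb * T ^ 4 * (ι (V l δ N) + T ^ 2 * (g1 - g2))) * e2
  have c1 := dvd_co L (N * 2 + c) 10 main
  have z3 : L (N * 2 + N) = 0 := by
    have := h.LL_per δ 0
    rw [h.LL_zero, add_zero] at this
    rw [show N * 2 + N = N * 3 by ring]; exact this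
  rw [map_sub, map_add, map_add, co_block z3, if_neg (by omega), ← C_pow, ← C_pow, co_C_mul,
    co_C_mul, zero_add] at c1
  obtain ⟨u6, f6⟩ := hL.co4 (N * 2 + c) F6
  obtain ⟨u8, f8⟩ := hL.co4 (N * 2 + c) F8
  have v6 : co l (N * 2 + c) F6 = nrm l (N - 1) * co l c (op l a * op l b) := by
    rw [hF6, map_sub, h.co_pow_lt 3 _ (by omega), h.co_pow_add, h.wr, add_mul, map_add, co_C_mul,
      mul_assoc, h.co_lt _ hc]; ring
  have v8 : co l (N * 2 + c) F8 = 2 * co l c (V l δ N * V l δ N * (op l a * op l b)) := by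
    rw [hF8, h.co_pow_add, ← co_C_mul]; rfl
  rw [← v6, ← v8]
  obtain ⟨w, hw⟩ := c1
  exact ⟨w + u6 + X ^ 2 * u8, by linear_combination hw + X ^ 6 * f6 + X ^ 8 * f8⟩

end Per

theorem ev_pos {f g : ℝ[X]} {k : ℕ} {c : ℝ} (hc : 0 < c)
    (hg : ∀ s : ℝ, 0 < s → 0 ≤ g.eval s) (h : X ^ (k + 1) ∣ f - (g + X ^ k * C c)) :
    ∀ᶠ s in 𝓝[>] (0 : ℝ), 0 < f.eval s := by
  obtain ⟨u, hu⟩ := h
  have e : f = g + X ^ k * (C c + X * u) := by linear_combination hu
  have h1 : ∀ᶠ s in 𝓝 (0 : ℝ), 0 < (C c + X * u).eval s :=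
    (C c + X * u).continuous.continuousAt.eventually (lt_mem_nhds (by simpa using hc))
  filter_upwards [nhdsWithin_le_nhds h1, self_mem_nhdsWithin] with s h1 h2
  rw [e, eval_add, eval_mul, eval_pow, eval_X]
  exact add_pos_of_nonneg_of_pos (hg s h2) (mul_pos (pow_pos h2 k) h1)

theorem co_ev_pos {N : ℕ} {l δ : ℕ → ℝ} (h : Per N l) (hd : Dir N l δ) {x y z : ℕ}
    (hxy : x ≤ y) (hy : y < N * 3) (h1 : y ≤ z) (h2 : z ≤ x + y) (hp : (x + y + z) % 2 = 0) :
    ∀ᶠ s in 𝓝[>] (0 : ℝ),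
      0 < (co (LL N l δ) z (op (LL N l δ) x * op (LL N l δ) y)).eval s := by
  have h3 := h.three
  have hodd := h.odd
  have ha : x % N < N := Nat.mod_lt _ (by omega)
  have hb : y % N < N := Nat.mod_lt _ (by omega)
  have hi : x / N ≤ y / N := Nat.div_le_div_right hxy
  have hj : y / N ≤ 2 := Nat.lt_succ_iff.1 (Nat.div_lt_of_lt_mul hy)
  have ex := (Nat.div_add_mod x N).symm
  have ey := (Nat.div_add_mod y N).symm
  generalize x / N = i at *
  generalize y / N = j at *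
  generalize x % N = a at *
  generalize y % N = b at *
  subst ex ey
  by_cases hex : i = 2 ∧ z < N * 3
  · obtain ⟨rfl, hz⟩ := hex
    obtain rfl : j = 2 := by omega
    obtain ⟨c, rfl⟩ : ∃ c, z = N * 2 + c := ⟨z - N * 2, by omega⟩
    have hY := nn_V hd.A (le_refl N)
    have hc : c < N := by omega
    refine ev_pos (k := 8) (c := 2 * co l c (V l δ N * V l δ N * (op l a * op l b)))
      (g := X ^ 6 * C (nrm l (N - 1) * co l c (op l a * op l b))) ?_ ?_
      ((pow_dvd_pow X (by norm_num)).trans (h.second_order δ hc))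
    · refine mul_pos two_pos (h.pos_full (h.nn_mul hY hY) ha hb hc fun e he hpar => ?_)
      have y2 := hd.A N (N - 2) (by omega) le_rfl (by omega)
      refine h.pos_mul hY hY y2 ?_
      rw [mul_comm]
      refine h.pos_mul hY (NN.op l _) y2 ?_
      exact h.strict (by omega) (by omega) (by omega) (by omega) (by omega) (by omega)
    · intro s hs
      simp only [eval_mul, eval_pow, eval_X, eval_C]
      exact mul_nonneg (by positivity)
        (mul_nonneg (h.nrm_pos _ (by omega)).le (h.nn_small ha hb c))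
  · have hc := (pert_LL N l δ).co6 (N * i + a) (N * j + b) z
    rcases first_order h hd hi hj ha hb h1 h2 hxy hp hex with hpos | ⟨h0, hpos⟩
    · obtain ⟨u, hu⟩ := hc
      refine ev_pos (k := 0) (g := 0) hpos (by simp)
        ⟨X ^ 5 * u + X ^ 3 * C (co l z (E l (bd N δ th) (N * i + a) (N * j + b))), ?_⟩
      linear_combination hu
    · rw [h0, map_zero] at hc
      exact ev_pos (k := 4) (g := 0) hpos (by simp) ((pow_dvd_pow X (by norm_num)).trans hc)

/-- the new coefficients at a real value of the parameter -/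
noncomputable def LS (N : ℕ) (l δ : ℕ → ℝ) (s : ℝ) : ℕ → ℝ := fun i => (LL N l δ i).eval s

theorem op_LS (N : ℕ) (l δ : ℕ → ℝ) (s : ℝ) (n : ℕ) :
    op (LS N l δ s) n = (op (LL N l δ) n).map (evalRingHom s) := by
  rw [op_map]; rfl

theorem per_step {N : ℕ} {l δ : ℕ → ℝ} (h : Per N l) (hd : Dir N l δ) :
    ∀ᶠ s in 𝓝[>] (0 : ℝ), Per (N * 3) (LS N l δ s) := by
  have h3 := h.three
  have hodd := h.odd
  have e1 : ∀ᶠ s in 𝓝[>] (0 : ℝ), ∀ i ∈ range (N * 3), 0 < i → 0 < (LL N l δ i).eval s := by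
    rw [eventually_all_finset]
    intro i hi
    by_cases h0 : 0 < i
    swap
    · exact Eventually.of_forall fun s h => (h0 h).elim
    have ha : i % N < N := Nat.mod_lt _ (by omega)
    have hj : i / N ≤ 2 := Nat.lt_succ_iff.1 (Nat.div_lt_of_lt_mul (by simpa using hi))
    have ex := (Nat.div_add_mod i N).symm
    generalize i / N = j at *
    generalize i % N = a at *
    subst ex
    rw [h.LL_mul_add δ j ha]
    by_cases ha0 : a = 0
    · subst ha0
      filter_upwards [self_mem_nhdsWithin] with s (hs : 0 < s) _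
      interval_cases j
      · omega
      · simp; positivity
      · simp; positivity
    · rw [if_neg ha0]
      have := ev_pos (k := 0) (g := 0) (f := C (l a) + X ^ 4 * C (th j * δ a))
        (h.pos a (by omega) ha) (by simp) ⟨X ^ 3 * C (th j * δ a), by ring⟩
      filter_upwards [this] with s hs _ using hs
  have e2 : ∀ᶠ s in 𝓝[>] (0 : ℝ), ∀ x ∈ range (N * 3), ∀ y ∈ range (N * 3),
      ∀ z ∈ range (N * 6), x ≤ y → y ≤ z → z ≤ x + y → (x + y + z) % 2 = 0 →
      0 < (co (LL N l δ) z (op (LL N l δ) x * op (LL N l δ) y)).eval s := by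
    simp only [eventually_all_finset]
    intro x _ y hy z _
    by_cases hc : x ≤ y ∧ y ≤ z ∧ z ≤ x + y ∧ (x + y + z) % 2 = 0
    · filter_upwards [co_ev_pos h hd hc.1 (by simpa using hy) hc.2.1 hc.2.2.1 hc.2.2.2]
        with s hs _ _ _ _ using hs
    · exact Eventually.of_forall fun s a b c d => (hc ⟨a, b, c, d⟩).elim
  filter_upwards [e1, e2] with s e1 e2
  refine ⟨by omega, by omega, fun i => ?_, ?_, fun i h1 h2 => e1 i (by simpa using h2) h1,
    fun x y z a b c d e => ?_⟩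
  · simp only [LS, h.LL_per]
  · simp only [LS, h.LL_zero, eval_zero]
  · have := e2 x (by simp; omega) y (by simp; omega) z (by simp; omega) a c d e
    rw [op_LS, op_LS, ← Polynomial.map_mul]
    rw [← coe_evalRingHom, co_map] at this
    exact this

end Pool.Agent.MP_5cc272_an.H57
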